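import Mathlib

/-!
# The Coxeter group with three generators and all labels equal to 5: basic definitions
-/

set_option autoImplicit false

namespace Pool.Agent.Lib.MP_b2bfca_co.K3

noncomputable section

/-- The golden ratio. -/
abbrev ph : ℝ := Real.goldenRatio

theorem ph_sq : ph ^ 2 = ph + 1 := Real.goldenRatio_sq

theorem ph_mul_self : ph * ph = ph + 1 := by
  have := ph_sq
  rwa [pow_two] at this

theorem one_lt_ph : 1 < ph := Real.one_lt_goldenRatio

theorem ph_pos : 0 < ph := lt_trans one_pos one_lt_ph

theorem ph_lt_two : ph < 2 := Real.goldenRatio_lt_two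

/-- The Coxeter matrix of size `3` with all off-diagonal entries `5`. -/
def cm : CoxeterMatrix (Fin 3) where
  M := fun i j => if i = j then 1 else 5
  isSymm := by
    ext i j
    simp only [Matrix.transpose_apply, eq_comm]
  diagonal := by simp
  off_diagonal := by
    intro i i' h
    simp [h]

/-- The Coxeter group. -/
abbrev W : Type := cm.Group

/-- The Coxeter system. -/
abbrev cs : CoxeterSystem cm W := cm.toCoxeterSystem

/-- The generators. -/
def s (i : Fin 3) : W := cs.simple i

/-- The length. -/
def len (g : W) : ℕ := cs.length g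

/-- `i` is a right descent of `g`. -/
def Des (g : W) (i : Fin 3) : Prop := len (g * s i) < len g

/-- The subgroup generated by the generators with index in `T`. -/
def Par (T : Finset (Fin 3)) : Subgroup W := Subgroup.closure {x | ∃ j ∈ T, x = s j}

theorem s_mul_s (i : Fin 3) : s i * s i = 1 := cs.simple_mul_simple_self i

theorem mul_s_s (g : W) (i : Fin 3) : g * s i * s i = g := by
  rw [mul_assoc, s_mul_s, mul_one]

theorem s_s_mul (g : W) (i : Fin 3) : s i * (s i * g) = g := by
  rw [← mul_assoc, s_mul_s, one_mul]

theorem s_inv (i : Fin 3) : (s i)⁻¹ = s i := cs.inv_simple i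

theorem len_one : len 1 = 0 := cs.length_one

theorem len_eq_zero {g : W} : len g = 0 ↔ g = 1 := cs.length_eq_zero_iff

theorem len_inv (g : W) : len g⁻¹ = len g := cs.length_inv g

theorem len_mul_le (g h : W) : len (g * h) ≤ len g + len h := cs.length_mul_le g h

theorem len_s (i : Fin 3) : len (s i) = 1 := cs.length_simple i

theorem des_iff {g : W} {i : Fin 3} : Des g i ↔ len (g * s i) + 1 = len g := by
  unfold Des len s
  rcases cs.length_mul_simple g i with h | h <;> omega

theorem not_des_iff {g : W} {i : Fin 3} : ¬ Des g i ↔ len (g * s i) = len g + 1 := by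
  unfold Des len s
  rcases cs.length_mul_simple g i with h | h <;> omega

theorem des_mul {g : W} {i : Fin 3} : Des (g * s i) i ↔ ¬ Des g i := by
  rw [des_iff, not_des_iff, mul_s_s]
  exact eq_comm

theorem not_des_mul {g : W} {i : Fin 3} (h : Des g i) : ¬ Des (g * s i) i := by
  rw [des_mul]
  exact fun h' => h' h

theorem not_des_one (i : Fin 3) : ¬ Des 1 i := by
  rw [not_des_iff, one_mul, len_one, len_s]

theorem exists_des {g : W} (h : g ≠ 1) : ∃ i, Des g i := by
  obtain ⟨i, hi⟩ := cs.exists_rightDescent_of_ne_one h
  exact ⟨i, hi⟩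

/-- Left version: `s i * k` is longer than `k` iff `i` is not a descent of `k⁻¹`. -/
theorem left_iff {k : W} {i : Fin 3} : len k < len (s i * k) ↔ ¬ Des k⁻¹ i := by
  rw [not_des_iff]
  have h1 : len (s i * k) = len (k⁻¹ * s i) := by
    rw [← len_inv (s i * k), mul_inv_rev, s_inv]
  have h2 := cs.length_simple_mul k i
  rw [← h1, len_inv]
  unfold len s at *
  omega

theorem exists_left {k : W} (h : k ≠ 1) : ∃ i k', k = s i * k' ∧ len k = len k' + 1 := by
  obtain ⟨i, hi⟩ := cs.exists_leftDescent_of_ne_one h
  refine ⟨i, s i * k, (s_s_mul k i).symm, ?_⟩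
  have := cs.isLeftDescent_iff.mp hi
  unfold len s
  omega

theorem braid {i j : Fin 3} (h : i ≠ j) :
    s i * s j * s i * s j * s i = s j * s i * s j * s i * s j := by
  have h1 : (s i * s j) ^ 5 = 1 := by
    have := cs.simple_mul_simple_pow i j
    have hM : cm.M i j = 5 := by simp [cm, h]
    rw [hM] at this
    exact this
  have h2 : (s i * s j * s i * s j * s i) * (s j * s i * s j * s i * s j) = 1 := by
    have : (s i * s j * s i * s j * s i) * (s j * s i * s j * s i * s j) = (s i * s j) ^ 5 := by
      simp only [pow_succ, pow_zero, one_mul, mul_assoc]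
    rw [this, h1]
  have h3 : (s j * s i * s j * s i * s j) * (s j * s i * s j * s i * s j) = 1 := by
    simp only [← mul_assoc]
    simp only [mul_s_s, s_mul_s]
  exact mul_right_cancel (h2.trans h3.symm)

theorem s_mem_par {T : Finset (Fin 3)} {j : Fin 3} (h : j ∈ T) : s j ∈ Par T :=
  Subgroup.subset_closure ⟨j, h, rfl⟩

/-- Induction by multiplying generators on the left. -/
theorem left_induction {p : W → Prop} (h1 : p 1)
    (h2 : ∀ (i : Fin 3) (k : W), len k < len (s i * k) → p k → p (s i * k)) (k : W) : p k := by
  induction hn : len k using Nat.strong_induction_on generalizing k with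
  | _ n ih =>
    by_cases hk : k = 1
    · rw [hk]; exact h1
    · obtain ⟨i, k', hk', hl⟩ := exists_left hk
      rw [hk']
      refine h2 i k' (by rw [← hk', hl]; exact Nat.lt_succ_self _) ?_
      exact ih (len k') (by omega) k' rfl

end

end Pool.Agent.Lib.MP_b2bfca_co.K3
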