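import Pool.Agent.Lib.MP_b2bfca_co.K3.ParA

/-!
# Parabolic subgroups: minimal coset representatives
-/

set_option autoImplicit false

namespace Pool.Agent.Lib.MP_b2bfca_co.K3

/-- Existence of minimal representatives by going down: if the set `O` is closed under descents
in `T` then it contains the minimal representative.  Proof: strong induction on `len g`. -/
theorem exists_min (T : Finset (Fin 3)) (g : W) : ∃ m : W, g⁻¹ * m ∈ Par T ∧
    (∀ t ∈ T, ¬ Des m t) ∧ len m ≤ len g ∧
    ∀ O : Set W, (∀ x ∈ O, ∀ t ∈ T, Des x t → x * s t ∈ O) → g ∈ O → m ∈ O := by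
  induction hn : len g using Nat.strong_induction_on generalizing g with
  | _ n ih =>
    by_cases h : ∃ t ∈ T, Des g t
    · obtain ⟨t, ht, hd⟩ := h
      have hl : len (g * s t) < n := by rw [← hn]; exact hd
      obtain ⟨m, h1, h2, h3, h4⟩ := ih (len (g * s t)) hl (g * s t) rfl
      refine ⟨m, ?_, h2, by omega, ?_⟩
      · have e : g⁻¹ * m = s t * ((g * s t)⁻¹ * m) := by
          rw [mul_inv_rev, s_inv, mul_assoc, s_s_mul]
        rw [e]
        exact (Par T).mul_mem (s_mem_par ht) h1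
      · intro O hO hg
        exact h4 O hO (hO g hg t ht hd)
    · push Not at h
      refine ⟨g, ?_, h, by omega, fun O _ hg => hg⟩
      rw [inv_mul_cancel]
      exact (Par T).one_mem

/-- The minimal element of `g Par T`. -/
noncomputable def mn (T : Finset (Fin 3)) (g : W) : W := (exists_min T g).choose

theorem mn_mem (T : Finset (Fin 3)) (g : W) : g⁻¹ * mn T g ∈ Par T :=
  (exists_min T g).choose_spec.1

theorem mn_not_des {T : Finset (Fin 3)} {g : W} {t : Fin 3} (ht : t ∈ T) : ¬ Des (mn T g) t :=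
  (exists_min T g).choose_spec.2.1 t ht

theorem len_mn_le (T : Finset (Fin 3)) (g : W) : len (mn T g) ≤ len g :=
  (exists_min T g).choose_spec.2.2.1

theorem mn_mem_of_closed {T : Finset (Fin 3)} {g : W} {O : Set W}
    (hO : ∀ x ∈ O, ∀ t ∈ T, Des x t → x * s t ∈ O) (hg : g ∈ O) : mn T g ∈ O :=
  (exists_min T g).choose_spec.2.2.2 O hO hg

theorem mn_unique {T : Finset (Fin 3)} {g m : W} (hm : ∀ t ∈ T, ¬ Des m t)
    (h : g⁻¹ * m ∈ Par T) : mn T g = m := by
  refine min_unique (fun t ht => mn_not_des ht) hm ?_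
  have h1 : (mn T g)⁻¹ * m = (g⁻¹ * mn T g)⁻¹ * (g⁻¹ * m) := by group
  rw [h1]
  exact (Par T).mul_mem ((Par T).inv_mem (mn_mem T g)) h

theorem mn_self {T : Finset (Fin 3)} {g : W} (hg : ∀ t ∈ T, ¬ Des g t) : mn T g = g := by
  refine mn_unique hg ?_
  rw [inv_mul_cancel]
  exact (Par T).one_mem

theorem mn_eq_iff {T : Finset (Fin 3)} {g h : W} : mn T g = mn T h ↔ g⁻¹ * h ∈ Par T := by
  constructor
  · intro e
    have h1 : g⁻¹ * h = (g⁻¹ * mn T g) * (h⁻¹ * mn T h)⁻¹ := by
      rw [e]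
      group
    rw [h1]
    exact (Par T).mul_mem (mn_mem T g) ((Par T).inv_mem (mn_mem T h))
  · intro h1
    refine mn_unique (fun t ht => mn_not_des ht) ?_
    have h2 : g⁻¹ * mn T h = (g⁻¹ * h) * (h⁻¹ * mn T h) := by group
    rw [h2]
    exact (Par T).mul_mem h1 (mn_mem T h)

theorem mn_mul_s {T : Finset (Fin 3)} {t : Fin 3} (ht : t ∈ T) (g : W) :
    mn T (g * s t) = mn T g := by
  rw [mn_eq_iff]
  have h1 : (g * s t)⁻¹ * g = s t := by
    rw [mul_inv_rev, s_inv]
    group
  rw [h1]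
  exact s_mem_par ht

/-- The ten elements of the dihedral group generated by `s i` and `s j`. -/
def dlist (i j : Fin 3) : List W :=
  [1, s i, s i * s j, s i * s j * s i, s i * s j * s i * s j,
    s j, s j * s i, s j * s i * s j, s j * s i * s j * s i, s i * s j * s i * s j * s i]

/-- `Par {i, j}` is contained in the list of ten elements. -/
theorem par_pair {i j : Fin 3} (hij : i ≠ j) {k : W} (hk : k ∈ Par {i, j}) : k ∈ dlist i j := by
  have hb := braid hij
  have hb' : s j * s i * s j * s i * s j * s j = s j * s i * s j * s i := mul_s_s _ _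
  have hR : ∀ x ∈ dlist i j, x * s i ∈ dlist i j ∧ x * s j ∈ dlist i j := by
    intro x hx
    simp only [dlist, List.mem_cons, List.not_mem_nil, or_false] at hx
    rcases hx with rfl | rfl | rfl | rfl | rfl | rfl | rfl | rfl | rfl | rfl
    · simp [dlist]
    · rw [s_mul_s]; simp [dlist]
    · rw [mul_s_s]; simp [dlist]
    · rw [mul_s_s]; simp [dlist]
    · rw [mul_s_s]; simp [dlist]
    · rw [s_mul_s]; simp [dlist]
    · rw [mul_s_s]; simp [dlist]
    · rw [mul_s_s]; simp [dlist]
    · rw [mul_s_s, ← hb]; simp [dlist]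
    · rw [mul_s_s, hb, mul_s_s]; simp [dlist]
  have hmem : ∀ y : W, y ∈ ({x | ∃ l ∈ ({i, j} : Finset (Fin 3)), x = s l} : Set W) →
      ∀ x ∈ dlist i j, x * y ∈ dlist i j := by
    rintro y ⟨l, hl, rfl⟩ x hx
    rw [Finset.mem_insert, Finset.mem_singleton] at hl
    rcases hl with rfl | rfl
    · exact (hR x hx).1
    · exact (hR x hx).2
  have hinv : ∀ y : W, y ∈ ({x | ∃ l ∈ ({i, j} : Finset (Fin 3)), x = s l} : Set W) →
      y⁻¹ = y := by
    rintro y ⟨l, hl, rfl⟩
    exact s_inv l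
  refine Subgroup.closure_induction_right
    (s := ({x | ∃ l ∈ ({i, j} : Finset (Fin 3)), x = s l} : Set W))
    (p := fun x _ => x ∈ dlist i j) ?_ ?_ ?_ hk
  · simp [dlist]
  · intro x _ y hy hx
    exact hmem y hy x hx
  · intro x _ y hy hx
    rw [hinv y hy]
    exact hmem y hy x hx

theorem dlist_mem {i j : Fin 3} {k : W} (hk : k ∈ dlist i j) : k ∈ Par {i, j} := by
  have hi : s i ∈ Par {i, j} := s_mem_par (by simp)
  have hj : s j ∈ Par {i, j} := s_mem_par (by simp)
  have hm : ∀ {a b : W}, a ∈ Par {i, j} → b ∈ Par {i, j} → a * b ∈ Par {i, j} :=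
    fun ha hb => (Par {i, j}).mul_mem ha hb
  simp only [dlist, List.mem_cons, List.not_mem_nil, or_false] at hk
  rcases hk with rfl | rfl | rfl | rfl | rfl | rfl | rfl | rfl | rfl | rfl
  · exact (Par {i, j}).one_mem
  · exact hi
  · exact hm hi hj
  · exact hm (hm hi hj) hi
  · exact hm (hm (hm hi hj) hi) hj
  · exact hj
  · exact hm hj hi
  · exact hm (hm hj hi) hj
  · exact hm (hm (hm hj hi) hj) hi
  · exact hm (hm (hm (hm hi hj) hi) hj) hi

end Pool.Agent.Lib.MP_b2bfca_co.K3
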