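import Pool.Agent.Lib.MP_b2bfca_co.K3.Cham
import Pool.Agent.Lib.MP_b2bfca_co.K3.ParB

/-!
# Cells: the finite data of one block of balls, and separation of balls
-/

set_option autoImplicit false

namespace Pool.Agent.Lib.MP_b2bfca_co.K3

open Finset Classical

/-- The data of one block: balls `a x` (`x : ι`), walls `r i`, cap balls `u i` (mirror images of
the balls inside the walls; the ball inside the wall `i` is `u i + 2 c r i`), a light-like vector
`n`. -/
structure Cell (V ι : Type) [AddCommGroup V] [Module ℝ V] [Fintype ι] extends Cfg V where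
  /-- balls -/
  a : ι → V
  /-- the walls orthogonal to a ball -/
  T : ι → Finset (Fin 3)
  /-- cap balls -/
  u : Fin 3 → V
  /-- point at infinity -/
  n : V
  /-- distance parameter -/
  c : ℝ
  aa : ∀ x, B (a x) (a x) = 1
  ab : ∀ x y, x ≠ y → B (a x) (a y) ≤ -1
  aT : ∀ x i, i ∈ T x → B (a x) (r i) = 0
  aT' : ∀ x i, i ∉ T x → B (a x) (r i) ≤ -1
  c_pos : 0 < c
  c_sq : 1 ≤ c ^ 2
  ur : ∀ i, B (u i) (r i) = -c
  ur' : ∀ i j, i ≠ j → B (u i) (r j) = 0
  uu : ∀ i, B (u i) (u i) = 1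
  uu' : ∀ i j, i ≠ j → B (u i) (u j) ≤ 1
  ua : ∀ i x, B (u i + (2 * c) • r i) (a x) ≤ -1
  nr : ∀ i, B n (r i) ≤ 0
  na : ∀ x, B n (a x) < 0
  nu : ∀ i, B n (u i) < 0
  /-- a ball disjoint from all walls -/
  x0 : ι
  hx0 : T x0 = ∅
  /-- the neighbours of the cap ball -/
  nb : Fin 3 → Finset ι
  nb_card : ∀ i, (nb i).card = 12
  nb_adj : ∀ i, ∀ x ∈ nb i, B (u i + (2 * c) • r i) (a x) = -1
  v0 : Fintype.card ι = 117
  v1 : ∀ i, (univ.filter fun x => i ∉ T x).card = 105
  v2 : ∀ i j, i ≠ j → (univ.filter fun x => i ∉ T x ∧ j ∉ T x).card = 96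
  /-- adjacent pairs, each in one order -/
  Ed : Finset (ι × ι)
  ed : ∀ p ∈ Ed, B (a p.1) (a p.2) = -1
  ed' : ∀ p ∈ Ed, (p.2, p.1) ∉ Ed
  e0 : Ed.card = 684
  e1 : ∀ i, (Ed.filter fun p => ¬ (i ∈ T p.1 ∧ i ∈ T p.2)).card = 654
  e2 : ∀ i j, i ≠ j → (Ed.filter fun p => ¬ (i ∈ T p.1 ∧ i ∈ T p.2) ∧
    ¬ (j ∈ T p.1 ∧ j ∈ T p.2)).card = 627

variable {V ι : Type} [AddCommGroup V] [Module ℝ V] [Fintype ι] (C : Cell V ι)

namespace Cell

theorem cham_a (x : ι) : C.Cham (C.a x) := by
  intro i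
  by_cases h : i ∈ C.T x
  · rw [C.aT x i h]
  · have := C.aT' x i h
    linarith

theorem cham_u (i : Fin 3) : C.Cham (C.u i) := by
  intro j
  by_cases h : i = j
  · rw [← h, C.ur i]
    have := C.c_pos
    linarith
  · rw [C.ur' i j h]

theorem open_x0 (i : Fin 3) : C.B (C.a C.x0) (C.r i) < 0 := by
  have := C.aT' C.x0 i (by rw [C.hx0]; simp)
  linarith

theorem stab_u {i : Fin 3} {k : W} (h : C.rep k (C.u i) = C.u i) : k ∈ Par {i}ᶜ := by
  refine C.stab (C.cham_u i) C.open_x0 ?_ h
  intro j hj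
  rw [Finset.mem_compl, Finset.mem_singleton]
  rintro rfl
  rw [C.ur] at hj
  have := C.c_pos
  linarith

theorem rep_u {i : Fin 3} {k : W} (h : k ∈ Par {i}ᶜ) : C.rep k (C.u i) = C.u i := by
  refine C.rep_par ?_ h
  intro j hj
  rw [Finset.mem_compl, Finset.mem_singleton] at hj
  exact C.ur' i j (Ne.symm hj)

theorem rep_a {x : ι} {k : W} (h : k ∈ Par (C.T x)) : C.rep k (C.a x) = C.a x :=
  C.rep_par (C.aT x) h

/-- Separation of block balls.  Left induction on `k`, `k = s m * k'`: if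
`B (rep k' (a x)) (a y) ≤ -1` use `step`; otherwise `x = y`, `rep k' (a x) = a x`, and either
`m ∈ T x` or `B (refl m (a x)) (a x) = 1 - 2 B (a x) (r m)^2 ≤ -1`. -/
theorem sepA (x y : ι) (k : W) :
    (x = y ∧ k ∈ Par (C.T x)) ∨ C.B (C.rep k (C.a x)) (C.a y) ≤ -1 := by
  induction k using left_induction with
  | h1 =>
    by_cases hxy : x = y
    · exact Or.inl ⟨hxy, (Par (C.T x)).one_mem⟩
    · right
      rw [C.rep_one_apply]
      exact C.ab x y hxy
  | h2 m k hl ih =>
    rcases ih with ⟨hxy, hk⟩ | ih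
    · by_cases hm : m ∈ C.T x
      · exact Or.inl ⟨hxy, (Par (C.T x)).mul_mem (s_mem_par hm) hk⟩
      · right
        subst hxy
        rw [C.rep_s_mul, C.rep_a hk, C.aa]
        have h1 := C.aT' x m hm
        nlinarith
    · right
      exact (C.step (C.cham_a x) (C.cham_a y) hl).trans ih

/-- Separation of a cap ball and a block ball.  Left induction on `k`, `k = s m * k'`: if
`k' ∉ Par {i}ᶜ` use `step`; otherwise `m = i` and `rep k (u i) = refl i (u i) = u i + 2 c r i`. -/
theorem sepC (i : Fin 3) (y : ι) {k : W} (hk : k ∉ Par {i}ᶜ) :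
    C.B (C.rep k (C.u i)) (C.a y) ≤ -1 := by
  induction k using left_induction with
  | h1 => exact absurd (Par {i}ᶜ).one_mem hk
  | h2 m k hl ih =>
    by_cases hk' : k ∈ Par {i}ᶜ
    · have hm : m = i := by
        by_contra hm
        apply hk
        refine (Par {i}ᶜ).mul_mem (s_mem_par ?_) hk'
        rw [Finset.mem_compl, Finset.mem_singleton]
        exact hm
      subst hm
      have h1 : C.rep (s m * k) (C.u m) = C.u m + (2 * C.c) • C.r m := by
        rw [C.rep_mul_apply, C.rep_s, C.rep_u hk', C.refl_apply, C.ur]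
        module
      rw [h1]
      exact C.ua m y
    · exact (C.step (C.cham_u i) (C.cham_a y) hl).trans (ih hk')

/-- Separation of two cap balls.  Left induction on `k`, `k = s m * k'`.  If `m ≠ j`:
`B (rep k (u i)) (u j) = B (rep k' (u i)) (u j)` and `k'` is again not a product.  If `m = j` and
`B (rep k' (u i)) (r j) = 0`: `rep k (u i) = rep k' (u i)`, `k'⁻¹ * k ∈ Par {i}ᶜ` by `stab_u`, so
`k'` is not a product either; use the induction hypothesis.  If `m = j` and
`B (rep k' (u i)) (r j) ≠ 0`: it equals `- c * rt k'⁻¹ j i ≤ -c` (`tits`, gap), so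
`B (rep k (u i)) (u j) ≤ B (rep k' (u i)) (u j) - 2 c * c ≤ B (u i) (u j) - 2 c ^ 2 ≤ -1`. -/
theorem sepCC (i j : Fin 3) {k : W} (hk : ∀ v ∈ Par {j}ᶜ, ∀ v' ∈ Par {i}ᶜ, k ≠ v * v') :
    C.B (C.rep k (C.u i)) (C.u j) ≤ -1 := by
  induction k using left_induction with
  | h1 => exact absurd (mul_one 1).symm (hk 1 (Par {j}ᶜ).one_mem 1 (Par {i}ᶜ).one_mem)
  | h2 m k hl ih =>
    by_cases hm : m = j
    · subst hm
      by_cases h0 : C.B (C.rep k (C.u i)) (C.r m) = 0
      · have h1 : C.rep (s m * k) (C.u i) = C.rep k (C.u i) := by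
          rw [C.rep_mul_apply, C.rep_s, C.refl_apply, h0]
          module
        have h2 : k⁻¹ * (s m * k) ∈ Par {i}ᶜ := by
          apply C.stab_u
          rw [C.rep_mul_apply k⁻¹ (s m * k), h1, C.rep_inv_apply]
        rw [h1]
        apply ih
        intro v hv v' hv' he
        refine hk v hv (v' * (k⁻¹ * (s m * k))) ((Par {i}ᶜ).mul_mem hv' h2) ?_
        rw [← mul_assoc, ← he]
        group
      · have h1 : C.B (C.rep k (C.u i)) (C.r m) = -(C.c * rt k⁻¹ m i) := by
          rw [C.B_rep_r, Finset.sum_eq_single i]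
          · rw [C.ur]
            ring
          · intro l _ hl'
            rw [C.ur' i l (Ne.symm hl'), mul_zero]
          · intro h
            exact absurd (Finset.mem_univ i) h
        have h2 : 1 ≤ rt k⁻¹ m i := by
          rcases tits (left_iff.1 hl) i with h | h
          · rw [h, mul_zero, neg_zero] at h1
            exact absurd h1 h0
          · exact h
        have h3 : C.B (C.rep k (C.u i)) (C.u m) ≤ 1 := by
          refine (C.mono (C.cham_u i) (C.cham_u m) k).trans ?_
          by_cases him : i = m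
          · rw [him, C.uu]
          · exact C.uu' i m him
        have h4 := C.c_pos
        have h5 := C.c_sq
        rw [C.rep_s_mul, C.ur, h1]
        nlinarith [mul_le_mul_of_nonneg_left h2 (mul_nonneg h4.le h4.le)]
    · have h1 : C.B (C.rep (s m * k) (C.u i)) (C.u j) = C.B (C.rep k (C.u i)) (C.u j) := by
        rw [C.rep_s_mul, C.ur' j m (Ne.symm hm)]
        ring
      rw [h1]
      apply ih
      intro v hv v' hv' he
      refine hk (s m * v) ((Par {j}ᶜ).mul_mem (s_mem_par ?_) hv) v' hv' ?_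
      · rw [Finset.mem_compl, Finset.mem_singleton]
        exact hm
      · rw [he, mul_assoc]

/-- All balls are on the correct side of the point at infinity. -/
theorem neg_a (x : ι) (k : W) : C.B C.n (C.rep k (C.a x)) < 0 := by
  rw [C.symm]
  have h1 := C.mono (C.cham_a x) (y := C.n) C.nr k
  have h2 := C.na x
  rw [C.symm] at h2
  linarith

theorem neg_u (i : Fin 3) (k : W) : C.B C.n (C.rep k (C.u i)) < 0 := by
  rw [C.symm]
  have h1 := C.mono (C.cham_u i) (y := C.n) C.nr k
  have h2 := C.nu i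
  rw [C.symm] at h2
  linarith

end Cell

end Pool.Agent.Lib.MP_b2bfca_co.K3
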