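import Pool.Agent.Lib.MP_b2bfca_co.K3.Tits

/-!
# The chamber of a configuration
-/

set_option autoImplicit false

namespace Pool.Agent.Lib.MP_b2bfca_co.K3

variable {V : Type} [AddCommGroup V] [Module ℝ V] (C : Cfg V)

namespace Cfg

/-- The closed chamber. -/
def Cham (x : V) : Prop := ∀ i, C.B x (C.r i) ≤ 0

/-- Pairing with `r m` after applying `k`, in coordinates. -/
theorem B_rep_r (k : W) (x : V) (m : Fin 3) :
    C.B (C.rep k x) (C.r m) = ∑ j, rt k⁻¹ m j * C.B x (C.r j) := by
  rw [C.B_rep_left, C.rep_root, map_sum]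
  simp only [map_smul, smul_eq_mul]

theorem B_rep_r_le {x : V} (hx : C.Cham x) {k : W} {m : Fin 3} (h : len k < len (s m * k)) :
    C.B (C.rep k x) (C.r m) ≤ 0 := by
  rw [C.B_rep_r]
  apply Finset.sum_nonpos
  intro j _
  exact mul_nonpos_of_nonneg_of_nonpos ((tits (left_iff.1 h)).nonneg j) (hx j)

theorem rep_s_mul (k : W) (m : Fin 3) (x y : V) :
    C.B (C.rep (s m * k) x) y
      = C.B (C.rep k x) y - 2 * C.B y (C.r m) * C.B (C.rep k x) (C.r m) := by
  rw [rep_mul_apply, rep_s, refl_apply]
  simp only [map_sub, map_smul, LinearMap.sub_apply, LinearMap.smul_apply, smul_eq_mul,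
    C.symm (C.r m) y]
  ring

/-- One step: multiplying on the left by `s m` (with increasing length) does not increase the
product with a vector of the chamber. -/
theorem step {x y : V} (hx : C.Cham x) (hy : C.Cham y) {k : W} {m : Fin 3}
    (h : len k < len (s m * k)) : C.B (C.rep (s m * k) x) y ≤ C.B (C.rep k x) y := by
  rw [rep_s_mul]
  nlinarith [mul_nonneg_of_nonpos_of_nonpos (hy m) (C.B_rep_r_le hx h)]

theorem mono {x y : V} (hx : C.Cham x) (hy : C.Cham y) (k : W) :
    C.B (C.rep k x) y ≤ C.B x y := by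
  induction k using left_induction with
  | h1 => rw [rep_one_apply]
  | h2 i k h ih => exact (C.step hx hy h).trans ih

/-- The stabiliser of a vector of the chamber is a parabolic subgroup.
Proof: left induction on `k`; with `y` in the open chamber,
`B (rep (s m * k) x) y = B (rep k x) y - 2 B y (r m) B (rep k x) (r m) ≤ B (rep k x) y ≤ B x y`,
so equality forces `B (rep k x) (r m) = 0`, `rep (s m * k) x = rep k x`, so `rep k x = x`. -/
theorem stab {x y : V} (hx : C.Cham x) (hy : ∀ i, C.B y (C.r i) < 0) {T : Finset (Fin 3)}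
    (hT : ∀ i, C.B x (C.r i) = 0 → i ∈ T) {k : W} (hk : C.rep k x = x) : k ∈ Par T := by
  revert hk
  induction k using left_induction with
  | h1 => exact fun _ => Subgroup.one_mem _
  | h2 i k h ih =>
    intro hk
    have h1 := C.rep_s_mul k i x y
    rw [hk] at h1
    have h2 := C.mono hx (fun j => (hy j).le) k
    have h3 := C.B_rep_r_le hx h
    have h4 := hy i
    have h5 : C.B (C.rep k x) (C.r i) = 0 := by
      by_contra hne
      have h6 : C.B (C.rep k x) (C.r i) < 0 := lt_of_le_of_ne h3 hne
      nlinarith [mul_pos_of_neg_of_neg h4 h6]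
    have h7 : C.rep (s i * k) x = C.rep k x := by
      rw [rep_mul_apply, rep_s, refl_apply, h5]
      simp
    have h8 : C.rep k x = x := h7.symm.trans hk
    rw [h8] at h5
    exact Subgroup.mul_mem _ (s_mem_par (hT i h5)) (ih h8)

theorem rep_par {x : V} {T : Finset (Fin 3)} (hT : ∀ i ∈ T, C.B x (C.r i) = 0) {k : W}
    (hk : k ∈ Par T) : C.rep k x = x := by
  refine Subgroup.closure_induction (p := fun g _ => C.rep g x = x) ?_ ?_ ?_ ?_ hk
  · rintro g ⟨j, hj, rfl⟩
    rw [rep_s, refl_apply, hT j hj]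
    simp
  · exact C.rep_one_apply x
  · intro a b _ _ ha hb
    rw [rep_mul_apply, hb, ha]
  · intro a _ ha
    have := C.rep_inv_apply a x
    rwa [ha] at this

end Cfg

end Pool.Agent.Lib.MP_b2bfca_co.K3
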