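import Pool.Agent.Lib.MP_b2bfca_co.K3.OmegaC

/-!
# Counting in good sets: descents, boundary, minimal representatives
-/

set_option autoImplicit false

namespace Pool.Agent.Lib.MP_b2bfca_co.K3

open Finset Classical

noncomputable section

theorem counta_fib {O : Finset W} (P : Fin 3 → W → Prop) [∀ i g, Decidable (P i g)] :
    (((univ : Finset (Fin 3)) ×ˢ O).filter fun p => P p.1 p.2).card =
      ∑ g ∈ O, (univ.filter fun i => P i g).card := by
  simp only [card_filter]
  rw [sum_product, sum_comm]

theorem counta_dec (S : Finset (Fin 3)) : (univ.filter fun l => S ⊆ {l}).card =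
    if S.card = 0 then 3 else if S.card = 1 then 1 else 0 := by
  revert S
  decide

/-- The set of right descents. -/
def D (g : W) : Finset (Fin 3) := univ.filter fun i => Des g i

theorem mem_D {g : W} {i : Fin 3} : i ∈ D g ↔ Des g i := by
  simp [D]

/-- By `noviol`. -/
theorem card_D_le (g : W) : (D g).card ≤ 2 := by
  by_contra h
  have h3 : (D g).card ≤ 3 := by
    have := card_le_univ (D g)
    simpa using this
  have h4 : D g = univ := by
    rw [← card_eq_iff_eq_univ]
    simp
    omega
  have hd : ∀ i, Des g i := fun i => mem_D.1 (by rw [h4]; exact mem_univ i)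
  exact (noviol (g := g) (i := 0) (j := 1) (l := 2) (by decide) (by decide) (by decide)
    (hd 0) (hd 1)).2 (hd 2)

theorem card_D_eq_zero {g : W} : (D g).card = 0 ↔ g = 1 := by
  rw [card_eq_zero]
  constructor
  · intro h
    by_contra hg
    obtain ⟨i, hi⟩ := exists_des hg
    have := mem_D.2 hi
    rw [h] at this
    exact notMem_empty _ this
  · rintro rfl
    rw [eq_empty_iff_forall_notMem]
    intro i hi
    exact not_des_one i (mem_D.1 hi)

/-- The number of elements with two descents. -/
def qq (O : Finset W) : ℕ := (O.filter fun g => (D g).card = 2).card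

/-- The boundary: pairs `(i, x)` with `x ∉ O`, `x * s i ∈ O`. -/
def bd (O : Finset W) : Finset (Fin 3 × W) :=
  (((univ : Finset (Fin 3)) ×ˢ O).image fun p => (p.1, p.2 * s p.1)).filter fun p => p.2 ∉ O

theorem mem_bd {O : Finset W} {p : Fin 3 × W} : p ∈ bd O ↔ p.2 ∉ O ∧ p.2 * s p.1 ∈ O := by
  rw [bd, mem_filter, mem_image, and_comm]
  refine and_congr_right fun _ => ?_
  constructor
  · rintro ⟨q, hq, rfl⟩
    rw [mem_product] at hq
    simpa only [mul_s_s] using hq.2
  · intro h
    exact ⟨(p.1, p.2 * s p.1), mem_product.2 ⟨mem_univ _, h⟩, by simp only [mul_s_s]⟩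

/-- Sum over a good set of a function of the number of descents. -/
theorem Good.sum_D {O : Finset W} (hO : Good O) (f : ℕ → ℕ) :
    ∑ g ∈ O, f (D g).card + f 1 * (1 + qq O) = f 0 + f 1 * O.card + f 2 * qq O := by
  have h0 : (O.filter fun g => (D g).card = 0).card = 1 := by
    have : (O.filter fun g => (D g).card = 0) = {1} := by
      ext g
      rw [mem_filter, card_D_eq_zero, mem_singleton]
      constructor
      · exact fun h => h.2
      · rintro rfl
        exact ⟨hO.one, rfl⟩
    rw [this, card_singleton]
  have h1 : ∀ g ∈ O, f (D g).card + f 1 * ((if (D g).card = 0 then 1 else 0) +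
      (if (D g).card = 2 then 1 else 0)) = f 0 * (if (D g).card = 0 then 1 else 0) + f 1 +
      f 2 * (if (D g).card = 2 then 1 else 0) := by
    intro g _
    have h2 := card_D_le g
    have h3 : (D g).card = 0 ∨ (D g).card = 1 ∨ (D g).card = 2 := by omega
    rcases h3 with h | h | h <;> rw [h] <;> simp [add_comm]
  have h2 := sum_congr rfl h1
  rw [sum_add_distrib, ← mul_sum, sum_add_distrib, ← card_filter, ← card_filter, sum_add_distrib,
    sum_add_distrib, ← mul_sum, ← mul_sum, ← card_filter, ← card_filter, h0, sum_const,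
    smul_eq_mul, mul_one] at h2
  rw [qq, h2]
  ring

/-- Number of boundary pairs: `N - 2q + 2`.
Proof: the pairs `(g, i)`, `g ∈ O`: `3N`; those with `Des g i`: `N - 1 + q`; those with
`¬ Des g i` and `g s_i ∈ O` correspond to them under `(g, i) ↦ (g s_i, i)`; the rest is
`bd O`. -/
theorem Good.card_bd {O : Finset W} (hO : Good O) : (bd O).card + 2 * qq O = O.card + 2 := by
  have hS := hO.sum_D id
  simp only [id] at hS
  have hA : (((univ : Finset (Fin 3)) ×ˢ O).filter fun p => Des p.2 p.1).card =
      ∑ g ∈ O, (D g).card := by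
    exact counta_fib (O := O) fun i g => Des g i
  have hT : (((univ : Finset (Fin 3)) ×ˢ O).filter fun p => Des p.2 p.1).card +
      (((univ : Finset (Fin 3)) ×ˢ O).filter fun p => ¬ Des p.2 p.1).card = 3 * O.card := by
    rw [card_filter_add_card_filter_not, card_product]
    simp
  have hB : (((univ : Finset (Fin 3)) ×ˢ O).filter fun p => ¬ Des p.2 p.1).card =
      (((univ : Finset (Fin 3)) ×ˢ O).filter fun p => Des p.2 p.1).card + (bd O).card := by
    rw [← card_filter_add_card_filter_not (s := ((univ : Finset (Fin 3)) ×ˢ O).filter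
      fun p => ¬ Des p.2 p.1) (fun p => p.2 * s p.1 ∈ O)]
    congr 1
    · refine card_bij (fun p _ => (p.1, p.2 * s p.1)) ?_ ?_ ?_
      · rintro ⟨i, g⟩ hp
        simp only [mem_filter, mem_product, mem_univ, true_and] at hp ⊢
        refine ⟨hp.2, ?_⟩
        rw [des_mul]
        exact hp.1.2
      · rintro ⟨i, g⟩ _ ⟨j, h⟩ _ he
        simp only [Prod.mk.injEq] at he
        obtain ⟨rfl, he⟩ := he
        rw [mul_right_cancel he]
      · rintro ⟨i, g⟩ hp
        simp only [mem_filter, mem_product, mem_univ, true_and] at hp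
        refine ⟨(i, g * s i), ?_, by simp only [mul_s_s]⟩
        simp only [mem_filter, mem_product, mem_univ, true_and]
        exact ⟨⟨hO.closed g hp.1 i hp.2, not_des_mul hp.2⟩, by rw [mul_s_s]; exact hp.1⟩
    · refine card_bij (fun p _ => (p.1, p.2 * s p.1)) ?_ ?_ ?_
      · rintro ⟨i, g⟩ hp
        simp only [mem_filter, mem_product, mem_univ, true_and] at hp
        rw [mem_bd]
        exact ⟨hp.2, by rw [mul_s_s]; exact hp.1.1⟩
      · rintro ⟨i, g⟩ _ ⟨j, h⟩ _ he
        simp only [Prod.mk.injEq] at he
        obtain ⟨rfl, he⟩ := he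
        rw [mul_right_cancel he]
      · rintro ⟨i, x⟩ hp
        rw [mem_bd] at hp
        simp only at hp
        refine ⟨(i, x * s i), ?_, by simp only [mul_s_s]⟩
        simp only [mem_filter, mem_product, mem_univ, true_and]
        refine ⟨⟨hp.2, fun hd => hp.1 ?_⟩, by rw [mul_s_s]; exact hp.1⟩
        have := hO.closed _ hp.2 i hd
        rwa [mul_s_s] at this
  omega

/-- The minimal representatives of the cosets of the three dihedral subgroups. -/
def mins (O : Finset W) : Finset (Fin 3 × W) :=
  ((univ : Finset (Fin 3)) ×ˢ O).filter fun p => ∀ t, t ≠ p.1 → ¬ Des p.2 t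

/-- `N - q + 2` of them. -/
theorem Good.card_mins {O : Finset W} (hO : Good O) :
    (mins O).card + qq O = O.card + 2 := by
  have hS := hO.sum_D (fun c => if c = 0 then 3 else if c = 1 then 1 else 0)
  have hM : (mins O).card = ∑ g ∈ O, (if (D g).card = 0 then 3 else
      if (D g).card = 1 then 1 else 0) := by
    rw [mins]
    refine (counta_fib (O := O) fun i g => ∀ t, t ≠ i → ¬ Des g t).trans ?_
    refine sum_congr rfl fun g _ => ?_
    rw [← counta_dec (D g)]
    congr 1
    ext l
    simp only [mem_filter, mem_univ, true_and, subset_iff, mem_D, mem_singleton]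
    constructor
    · intro h t ht
      by_contra hne
      exact h t hne ht
    · intro h t hne ht
      exact hne (h ht)
  simp only [if_true, one_ne_zero, if_false, OfNat.ofNat_ne_zero, OfNat.ofNat_ne_one, zero_mul,
    add_zero, one_mul] at hS
  omega

end

end Pool.Agent.Lib.MP_b2bfca_co.K3
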