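import Pool.Agent.Lib.MP_b2bfca_co.K3.CountA

/-!
# The recursion: upper bound for the next layer
-/

set_option autoImplicit false

namespace Pool.Agent.Lib.MP_b2bfca_co.K3

open Finset Classical

/-- `N' ≤ 7N - 8q + 18`.
Proof: consider `X = {(l, m, k) : (l, m) ∈ mins O, k ∈ ten l}`, at most `10 (N - q + 2)`
elements, and the map `(l, m, k) ↦ m k` onto `next O`.  The fibre over `g ∈ O` has at least `3`
elements (`m = mn {l}ᶜ g` for each `l`), the fibre over the outer boundary elements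
(`x ∉ O`, `x s_i ∈ O`, `N - 2q + 2` of them by `card_bd` and `bd_des`, the map `(i, x) ↦ x` being
injective on `bd O`) at least `2` (the two `l ≠ i`: `mn {l}ᶜ x = mn {l}ᶜ (x s_i) ∈ O`),
all others at least `1`.  So `10 (N - q + 2) ≥ N' + 2 N + (N - 2q + 2)`. -/
theorem Good.card_next {O : Finset W} (hO : Good O) :
    (K3.next O).card + 8 * qq O ≤ 7 * O.card + 18 := by
  have hbd := hO.card_bd
  have hmins := hO.card_mins
  -- the set X
  obtain ⟨X, hX⟩ : ∃ X : Finset (Sigma fun _ : Fin 3 × W => W),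
      X = (mins O).sigma fun p => ten p.1 := ⟨_, rfl⟩
  have hXc : X.card ≤ 10 * (mins O).card := by
    rw [hX, card_sigma]
    calc ∑ p ∈ mins O, (ten p.1).card ≤ ∑ p ∈ mins O, 10 :=
          sum_le_sum fun p _ => card_ten_le p.1
      _ = 10 * (mins O).card := by rw [sum_const, smul_eq_mul, mul_comm]
  -- the number of labels
  obtain ⟨c, hc⟩ : ∃ c : W → ℕ, ∀ g, c g =
      ((univ : Finset (Fin 3)).filter fun l => mn {l}ᶜ g ∈ O).card := ⟨_, fun _ => rfl⟩
  have hP : ∑ g ∈ K3.next O, c g ≤ X.card := by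
    have e1 : ∑ g ∈ K3.next O, c g =
        ((K3.next O).sigma fun g => (univ : Finset (Fin 3)).filter fun l => mn {l}ᶜ g ∈ O).card := by
      rw [card_sigma]
      exact sum_congr rfl fun g _ => hc g
    rw [e1]
    refine card_le_card_of_injOn
      (fun q => ⟨(q.2, mn {q.2}ᶜ q.1), (mn {q.2}ᶜ q.1)⁻¹ * q.1⟩) ?_ ?_
    · rintro ⟨g, l⟩ hq
      rw [mem_coe, mem_sigma, mem_filter] at hq
      rw [hX, mem_coe, mem_sigma]
      refine ⟨?_, ?_⟩
      · rw [mins, mem_filter, mem_product]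
        refine ⟨⟨mem_univ _, hq.2.2⟩, fun t ht => ?_⟩
        exact mn_not_des (by rw [mem_compl, mem_singleton]; exact ht)
      · show (mn {l}ᶜ g)⁻¹ * g ∈ ten l
        rw [mem_ten]
        have h1 := (Par ({l}ᶜ)).inv_mem (K3.mn_mem {l}ᶜ g)
        rwa [mul_inv_rev, inv_inv] at h1
    · rintro ⟨g, l⟩ _ ⟨g', l'⟩ _ h
      simp only [Sigma.mk.injEq, Prod.mk.injEq, heq_eq_eq] at h
      obtain ⟨⟨h1, h2⟩, h3⟩ := h
      subst h1
      rw [h2] at h3
      have h4 : g = g' := mul_left_cancel h3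
      rw [h4]
  have hc1 : ∀ g ∈ K3.next O, 1 ≤ c g := by
    intro g hg
    obtain ⟨l, hl⟩ := hO.mem_next.1 hg
    rw [hc, Nat.one_le_iff_ne_zero, ← Nat.pos_iff_ne_zero, card_pos]
    exact ⟨l, mem_filter.2 ⟨mem_univ _, hl⟩⟩
  have hc3 : ∀ g ∈ O, c g = 3 := by
    intro g hg
    rw [hc, filter_true_of_mem fun l _ => hO.mn_mem hg _]
    rfl
  have hc2 : ∀ p ∈ bd O, 2 ≤ c p.2 ∧ p.2 ∈ K3.next O := by
    rintro ⟨i, x⟩ hp
    rw [mem_bd] at hp
    have key : ∀ l, l ≠ i → mn {l}ᶜ x ∈ O := by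
      intro l hl
      have h1 : mn {l}ᶜ (x * s i) = mn {l}ᶜ x :=
        mn_mul_s (by rw [mem_compl, mem_singleton]; exact fun h => hl h.symm) x
      rw [← h1]
      exact hO.mn_mem hp.2 _
    constructor
    · rw [hc]
      have h2 : (univ : Finset (Fin 3)).erase i ⊆
          (univ : Finset (Fin 3)).filter fun l => mn {l}ᶜ x ∈ O := by
        intro l hl
        rw [mem_erase] at hl
        exact mem_filter.2 ⟨mem_univ _, key l hl.1⟩
      have h3 := card_le_card h2
      rw [card_erase_of_mem (mem_univ _), card_univ, Fintype.card_fin] at h3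
      exact h3
    · rw [hO.mem_next]
      exact ⟨i + 1, key (i + 1) (by fin_cases i <;> decide)⟩
  -- the boundary elements
  obtain ⟨Bx, hBx⟩ : ∃ Bx : Finset W, Bx = (bd O).image Prod.snd := ⟨_, rfl⟩
  have hBc : Bx.card = (bd O).card := by
    rw [hBx]
    refine card_image_of_injOn ?_
    rintro ⟨i, x⟩ hp ⟨j, y⟩ hq h
    rw [mem_coe, mem_bd] at hp hq
    simp only at h hp hq
    subst h
    have h1 := (hO.bd_des hp.1 hp.2).2
    have h2 := (hO.bd_des hq.1 hq.2).1
    by_contra hne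
    have hij : j ≠ i := by
      rintro rfl
      exact hne rfl
    exact h1 j hij h2
  have hBn : Bx ⊆ K3.next O := by
    intro x hx
    rw [hBx, mem_image] at hx
    obtain ⟨p, hp, rfl⟩ := hx
    exact (hc2 p hp).2
  have hlow : ∑ g ∈ K3.next O, (1 + 2 * (if g ∈ O then 1 else 0) + (if g ∈ Bx then 1 else 0)) ≤
      ∑ g ∈ K3.next O, c g := by
    refine sum_le_sum fun g hg => ?_
    by_cases h1 : g ∈ O
    · have h2 : g ∉ Bx := by
        intro h3
        rw [hBx, mem_image] at h3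
        obtain ⟨p, hp, rfl⟩ := h3
        exact (mem_bd.1 hp).1 h1
      rw [hc3 g h1, if_pos h1, if_neg h2]
    · by_cases h2 : g ∈ Bx
      · rw [if_neg h1, if_pos h2]
        rw [hBx, mem_image] at h2
        obtain ⟨p, hp, rfl⟩ := h2
        exact (hc2 p hp).1
      · rw [if_neg h1, if_neg h2]
        exact hc1 g hg
  have hsum : ∑ g ∈ K3.next O, (1 + 2 * (if g ∈ O then 1 else 0) + (if g ∈ Bx then 1 else 0)) =
      (K3.next O).card + 2 * O.card + Bx.card := by
    rw [sum_add_distrib, sum_add_distrib, ← mul_sum, sum_ite_mem, sum_ite_mem,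
      inter_eq_right.2 (subset_next O), inter_eq_right.2 hBn]
    simp
  omega

end Pool.Agent.Lib.MP_b2bfca_co.K3
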