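import Pool.Agent.Lib.MP_b2bfca_co.K3.OmegaA

/-!
# The next layer of a good set is good
-/

set_option autoImplicit false

namespace Pool.Agent.Lib.MP_b2bfca_co.K3

open Finset Classical

noncomputable section

theorem omegaN_third : ∀ i j : Fin 3, i ≠ j →
    ∃ m : Fin 3, i ≠ m ∧ j ≠ m ∧ ({m}ᶜ : Finset (Fin 3)) = {i, j} := by
  decide

theorem omegaN_mem {i m : Fin 3} (h : i ≠ m) : i ∈ ({m}ᶜ : Finset (Fin 3)) := by
  rw [Finset.mem_compl, Finset.mem_singleton]
  exact h

theorem omegaN_cases : ∀ i j m l : Fin 3, i ≠ j → i ≠ m → j ≠ m → l = i ∨ l = j ∨ l = m := by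
  decide

/-- If no label different from `l` is a descent then `mn {l}ᶜ g = g`. -/
theorem omegaN_mn_self {l a b : Fin 3} (hab : a ≠ b) (hla : a ≠ l) (hlb : b ≠ l) {g : W}
    (ha : ¬ Des g a) (hb : ¬ Des g b) : mn {l}ᶜ g = g := by
  refine mn_self fun t ht => ?_
  rw [Finset.mem_compl, Finset.mem_singleton] at ht
  rcases omegaN_cases a b l t hab hla hlb with h | h | h
  · rw [h]; exact ha
  · rw [h]; exact hb
  · exact absurd h ht

/-- The core of `full`: the minimal representative for `{i, j}` is in `O`. -/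
theorem Good.mn_third {O : Finset W} (hO : Good O) {g : W} {i j m l : Fin 3} (hij : i ≠ j)
    (him : i ≠ m) (hjm : j ≠ m) (hl : mn {l}ᶜ g ∈ O) (h1 : Des g i) (h2 : Des (g * s i) j)
    (h3 : Des (g * s i * s j) i) : mn {m}ᶜ g ∈ O := by
  -- the case `l = j`
  have key : ∀ i j : Fin 3, i ≠ j → i ≠ m → j ≠ m → mn {j}ᶜ g ∈ O → Des g i → Des (g * s i) j →
      Des (g * s i * s j) i → mn {m}ᶜ g ∈ O := by
    intro i j hij him hjm hl h1 h2 h3
    have h4 : ¬ Des (g * s i) m := by
      intro h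
      exact (noviol hjm hij.symm him.symm h2 h).1 h3
    have h5 : mn {j}ᶜ (g * s i) = g * s i :=
      omegaN_mn_self him hij hjm.symm (not_des_mul h1) h4
    rw [mn_mul_s (omegaN_mem hij)] at h5
    rw [h5] at hl
    have h6 := hO.mn_mem hl {m}ᶜ
    rwa [mn_mul_s (omegaN_mem him)] at h6
  rcases omegaN_cases i j m l hij him hjm with rfl | rfl | rfl
  · by_cases hj : Des g j
    · have h4 := dih hij.symm hj h1
      exact key j l hij.symm hjm him hl hj h4.1 h4.2.1
    · by_cases hm : Des g m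
      · exact absurd h2 (noviol him hij hjm.symm h1 hm).1
      · rw [omegaN_mn_self hjm hij.symm him.symm hj hm] at hl
        exact hO.mn_mem hl _
  · exact key i l hij him hjm hl h1 h2 h3
  · exact hl

/-- The next layer of a good set is good.

`closed`: let `mn {l}ᶜ g ∈ O` and `Des g i`.  If `i ≠ l` then `mn {l}ᶜ (g * s i) = mn {l}ᶜ g`.
If `i = l`: if no `j ≠ l` is a descent of `g` then `g = mn {l}ᶜ g ∈ O`, so `g * s i ∈ O`.
Otherwise `Des g j`, `j ≠ l`; let `m` be the third label.  By `noviol` (for `g; j, l`), `m` is not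
a descent of `g * s j`, nor is `j`, so `mn {l}ᶜ g = g * s j ∈ O` and
`mn {m}ᶜ (g * s l) = mn {m}ᶜ (g * s j) ∈ O`.

`full`: let `mn {l}ᶜ g ∈ O` and `Des g i`, `Des (g s_i) j`, `Des (g s_i s_j) i`; let `m` be the
third label.  It suffices that `mn {m}ᶜ g ∈ O`.  `l = m`: clear.  `l = j` (so `{l}ᶜ = {i, m}`):
`i` is not a descent of `g s_i`, and `m` is not one (else `noviol` for `(g s_i; j, m, i)`
contradicts `Des (g s_i s_j) i`), so `mn {l}ᶜ g = g s_i ∈ O` and `mn {m}ᶜ g = mn {m}ᶜ (g s_i) ∈ O`.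
`l = i` (so `{l}ᶜ = {j, m}`): if `Des g j` then also `Des (g s_j) i`, `Des (g s_j s_i) j` by `dih`
and the previous case applies with `i, j` exchanged; `Des g m` is impossible by `noviol` for
`(g; i, m, j)`; otherwise `mn {l}ᶜ g = g ∈ O`. -/
theorem Good.next {O : Finset W} (hO : Good O) : Good (next O) := by
  constructor
  · exact subset_next O hO.one
  · intro g hg l hl
    obtain ⟨k, hk⟩ := hO.mem_next.mp hg
    rw [hO.mem_next]
    by_cases hkl : l = k
    · subst hkl
      -- is there a second descent?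
      by_cases hj : ∃ j, j ≠ l ∧ Des g j
      · obtain ⟨j, hjl, hj⟩ := hj
        obtain ⟨m, hjm, hlm, hm⟩ := omegaN_third j l hjl
        have h1 := (noviol hjl hjm hlm hj hl).1
        have h2 : mn {l}ᶜ (g * s j) = g * s j :=
          omegaN_mn_self hjm hjl hlm.symm (not_des_mul hj) h1
        rw [mn_mul_s (omegaN_mem hjl)] at h2
        rw [h2] at hk
        refine ⟨m, ?_⟩
        rw [mn_mul_s (omegaN_mem hlm)]
        have h3 := hO.mn_mem hk {m}ᶜ
        rwa [mn_mul_s (omegaN_mem hjm)] at h3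
      · have h1 : mn {l}ᶜ g = g := by
          refine mn_self fun t ht => ?_
          rw [Finset.mem_compl, Finset.mem_singleton] at ht
          exact fun h => hj ⟨t, ht, h⟩
        rw [h1] at hk
        exact ⟨l, hO.mn_mem (hO.closed g hk l hl) _⟩
    · exact ⟨k, by rw [mn_mul_s (omegaN_mem hkl)]; exact hk⟩
  · intro g hg i j hij h1 h2 h3 k hk
    obtain ⟨l, hl⟩ := hO.mem_next.mp hg
    obtain ⟨m, him, hjm, hm⟩ := omegaN_third i j hij
    have h4 := hO.mn_third hij him hjm hl h1 h2 h3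
    rw [hO.mem_next]
    refine ⟨m, ?_⟩
    have h5 : mn {m}ᶜ (g * k) = mn {m}ᶜ g := by
      rw [eq_comm, mn_eq_iff, hm]
      rw [← mul_assoc, inv_mul_cancel, one_mul]
      exact hk
    rw [h5]
    exact h4

/-- The sets `Ω_K`. -/
def Om : ℕ → Finset W
  | 0 => {1}
  | (K + 1) => K3.next (Om K)

theorem good_Om (K : ℕ) : Good (Om K) := by
  induction K with
  | zero => exact good_one
  | succ K ih => exact ih.next

end

end Pool.Agent.Lib.MP_b2bfca_co.K3
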