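import Pool.Agent.Lib.MP_b2bfca_co.K3.CountA
import Pool.Agent.Lib.MP_b2bfca_co.K3.OmegaN

/-!
# The recursion: lower bounds
-/

set_option autoImplicit false

namespace Pool.Agent.Lib.MP_b2bfca_co.K3

open Finset Classical

theorem countQ_labels : ∀ l : Fin 3, l + 1 ≠ l + 2 ∧ l + 1 ≠ l ∧ l + 2 ≠ l := by
  decide

theorem countQ_card : ∀ l : Fin 3, ({l + 1, l + 2} : Finset (Fin 3)).card = 2 := by
  decide

theorem countQ_inj : ∀ l k : Fin 3, ({l + 1, l + 2} : Finset (Fin 3)) = {k + 1, k + 2} → l = k := by
  decide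

/-- The longest element of the dihedral group of the labels different from `l`. -/
noncomputable def countQ_w (l : Fin 3) : W := s (l + 1) * s (l + 2) * s (l + 1) * s (l + 2) * s (l + 1)

theorem countQ_w_mem (l : Fin 3) : countQ_w l ∈ Par {l}ᶜ := by
  obtain ⟨_, h1, h2⟩ := countQ_labels l
  have ha : s (l + 1) ∈ Par {l}ᶜ := s_mem_par (by
    rw [Finset.mem_compl, Finset.mem_singleton]; exact h1)
  have hb : s (l + 2) ∈ Par {l}ᶜ := s_mem_par (by
    rw [Finset.mem_compl, Finset.mem_singleton]; exact h2)
  exact (Par _).mul_mem ((Par _).mul_mem ((Par _).mul_mem ((Par _).mul_mem ha hb) ha) hb) ha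

theorem countQ_D {l : Fin 3} {m : W} (h : ∀ t, t ≠ l → ¬ Des m t) :
    D (m * countQ_w l) = {l + 1, l + 2} := by
  obtain ⟨h0, h1, h2⟩ := countQ_labels l
  obtain ⟨_, _, _, _, e1, e2⟩ := up h0 (h _ h1) (h _ h2)
  have hw : m * countQ_w l = m * s (l + 1) * s (l + 2) * s (l + 1) * s (l + 2) * s (l + 1) := by
    unfold countQ_w
    simp only [mul_assoc]
  symm
  refine Finset.eq_of_subset_of_card_le ?_ ?_
  · intro t ht
    rw [Finset.mem_insert, Finset.mem_singleton] at ht
    rw [mem_D, hw]
    rcases ht with rfl | rfl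
    · exact e1
    · exact e2
  · rw [countQ_card]
    exact card_D_le _

/-- `q' ≥ N - q + 2`.
Proof: `(l, m) ↦ m * w0`, `w0` the longest element of the dihedral group of the labels
`l + 1, l + 2` is an injection of `mins O` into the elements of `next O` with two descents
(by `up` and `card_D_le` the descents of the image are exactly the two labels `≠ l`). -/
theorem Good.qq_next {O : Finset W} (hO : Good O) :
    O.card + 2 ≤ qq (K3.next O) + qq O := by
  rw [← hO.card_mins]
  refine Nat.add_le_add_right ?_ _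
  unfold qq
  refine Finset.card_le_card_of_injOn (fun p => p.2 * countQ_w p.1) ?_ ?_
  · rintro ⟨l, m⟩ hp
    have hp' := hp
    rw [Finset.mem_coe] at hp'
    unfold mins at hp'
    rw [Finset.mem_filter, Finset.mem_product] at hp'
    rw [Finset.mem_coe, Finset.mem_filter]
    refine ⟨?_, ?_⟩
    · rw [K3.mem_next]
      refine ⟨l, m, hp'.1.2, ?_⟩
      rw [inv_mul_cancel_left]
      exact countQ_w_mem l
    · show (D (m * countQ_w l)).card = 2
      rw [countQ_D hp'.2, countQ_card]
  · rintro ⟨l, m⟩ hp ⟨k, m'⟩ hq he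
    rw [Finset.mem_coe] at hp hq
    unfold mins at hp hq
    rw [Finset.mem_filter] at hp hq
    have he' : m * countQ_w l = m' * countQ_w k := he
    have h1 := countQ_D hp.2
    have h2 := countQ_D hq.2
    rw [he', h2] at h1
    have h3 := countQ_inj _ _ h1.symm
    subst h3
    rw [mul_right_cancel he']

/-- An element of maximal length of `O` has a non-descent `i` (`card_D_le`), and
`g * s i ∈ next O \ O`. -/
theorem Good.card_lt_next {O : Finset W} (hO : Good O) : O.card < (K3.next O).card := by
  obtain ⟨g, hg, hmax⟩ := Finset.exists_max_image O len ⟨1, hO.one⟩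
  obtain ⟨i, hi⟩ : ∃ i, ¬ Des g i := by
    by_contra hcon
    push Not at hcon
    have h1 : D g = Finset.univ := by
      ext i
      rw [mem_D]
      exact ⟨fun _ => Finset.mem_univ _, fun _ => hcon i⟩
    have h2 := card_D_le g
    rw [h1] at h2
    simp at h2
  refine Finset.card_lt_card ?_
  rw [Finset.ssubset_iff_of_subset (subset_next O)]
  refine ⟨g * s i, ?_, ?_⟩
  · rw [K3.mem_next]
    refine ⟨i + 1, g, hg, ?_⟩
    rw [inv_mul_cancel_left]
    refine s_mem_par ?_
    rw [Finset.mem_compl, Finset.mem_singleton]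
    exact (countQ_labels i).2.1.symm
  · intro h
    have h1 := hmax _ h
    have h2 := not_des_iff.mp hi
    omega

theorem qq_le (O : Finset W) : qq O ≤ O.card := Finset.card_filter_le _ _

theorem card_Om_ge (K : ℕ) : K + 1 ≤ (Om K).card := by
  induction K with
  | zero => simp [Om]
  | succ K ih =>
    have := (good_Om K).card_lt_next
    rw [Om]
    omega

theorem card_Om_zero : (Om 0).card = 1 := by simp [Om]

theorem qq_Om_zero : qq (Om 0) = 0 := by
  unfold qq
  rw [Finset.card_eq_zero, Finset.filter_eq_empty_iff]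
  intro g hg
  have h1 : g = 1 := by
    have h2 : Om 0 = {1} := rfl
    rw [h2] at hg
    exact Finset.mem_singleton.mp hg
  have h2 := card_D_eq_zero.mpr h1
  omega

end Pool.Agent.Lib.MP_b2bfca_co.K3
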