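import Mathlib

/-!
# The 120 vertices of the 600-cell

Coordinates doubled, in `ℤ[φ]`: `(a0, b0, a1, b1, a2, b2, a3, b3)` stands for the vertex
`((a0 + b0 φ) / 2, ..., (a3 + b3 φ) / 2)`.  The last three vertices are the centres
`w 0 = (0,0,0,1)`, `w 1 = (1,1,1,1)/2`, `w 2 = (1,-1,1,1)/2` of the three walls.
-/

set_option autoImplicit false

namespace Pool.Agent.Lib.MP_b2bfca_co.K3

/-- The vertices. -/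
def vl : List (ℤ × ℤ × ℤ × ℤ × ℤ × ℤ × ℤ × ℤ) := [
  (2, 0, 0, 0, 0, 0, 0, 0),
  (-2, 0, 0, 0, 0, 0, 0, 0),
  (0, 0, 2, 0, 0, 0, 0, 0),
  (0, 0, -2, 0, 0, 0, 0, 0),
  (0, 0, 0, 0, 2, 0, 0, 0),
  (0, 0, 0, 0, -2, 0, 0, 0),
  (0, 0, 0, 0, 0, 0, -2, 0),
  (1, 0, 1, 0, 1, 0, -1, 0),
  (1, 0, 1, 0, -1, 0, 1, 0),
  (1, 0, 1, 0, -1, 0, -1, 0),
  (1, 0, -1, 0, 1, 0, -1, 0),
  (1, 0, -1, 0, -1, 0, 1, 0),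
  (1, 0, -1, 0, -1, 0, -1, 0),
  (-1, 0, 1, 0, 1, 0, 1, 0),
  (-1, 0, 1, 0, 1, 0, -1, 0),
  (-1, 0, 1, 0, -1, 0, 1, 0),
  (-1, 0, 1, 0, -1, 0, -1, 0),
  (-1, 0, -1, 0, 1, 0, 1, 0),
  (-1, 0, -1, 0, 1, 0, -1, 0),
  (-1, 0, -1, 0, -1, 0, 1, 0),
  (-1, 0, -1, 0, -1, 0, -1, 0),
  (0, 1, 1, 0, -1, 1, 0, 0),
  (0, 1, 1, 0, 1, -1, 0, 0),
  (0, 1, -1, 0, -1, 1, 0, 0),
  (0, 1, -1, 0, 1, -1, 0, 0),
  (0, -1, 1, 0, -1, 1, 0, 0),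
  (0, -1, 1, 0, 1, -1, 0, 0),
  (0, -1, -1, 0, -1, 1, 0, 0),
  (0, -1, -1, 0, 1, -1, 0, 0),
  (0, 1, 0, 0, 1, 0, -1, 1),
  (0, 1, 0, 0, 1, 0, 1, -1),
  (0, 1, 0, 0, -1, 0, -1, 1),
  (0, 1, 0, 0, -1, 0, 1, -1),
  (0, -1, 0, 0, 1, 0, -1, 1),
  (0, -1, 0, 0, 1, 0, 1, -1),
  (0, -1, 0, 0, -1, 0, -1, 1),
  (0, -1, 0, 0, -1, 0, 1, -1),
  (0, 1, -1, 1, 0, 0, 1, 0),
  (0, 1, 1, -1, 0, 0, 1, 0),
  (0, 1, -1, 1, 0, 0, -1, 0),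
  (0, 1, 1, -1, 0, 0, -1, 0),
  (0, -1, -1, 1, 0, 0, 1, 0),
  (0, -1, 1, -1, 0, 0, 1, 0),
  (0, -1, -1, 1, 0, 0, -1, 0),
  (0, -1, 1, -1, 0, 0, -1, 0),
  (1, 0, 0, 1, 0, 0, -1, 1),
  (1, 0, 0, 1, 0, 0, 1, -1),
  (-1, 0, 0, 1, 0, 0, -1, 1),
  (-1, 0, 0, 1, 0, 0, 1, -1),
  (1, 0, 0, -1, 0, 0, -1, 1),
  (1, 0, 0, -1, 0, 0, 1, -1),
  (-1, 0, 0, -1, 0, 0, -1, 1),
  (-1, 0, 0, -1, 0, 0, 1, -1),
  (-1, 1, 0, 1, 1, 0, 0, 0),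
  (1, -1, 0, 1, 1, 0, 0, 0),
  (-1, 1, 0, 1, -1, 0, 0, 0),
  (1, -1, 0, 1, -1, 0, 0, 0),
  (-1, 1, 0, -1, 1, 0, 0, 0),
  (1, -1, 0, -1, 1, 0, 0, 0),
  (-1, 1, 0, -1, -1, 0, 0, 0),
  (1, -1, 0, -1, -1, 0, 0, 0),
  (0, 0, 0, 1, -1, 1, 1, 0),
  (0, 0, 0, 1, 1, -1, 1, 0),
  (0, 0, 0, 1, -1, 1, -1, 0),
  (0, 0, 0, 1, 1, -1, -1, 0),
  (0, 0, 0, -1, -1, 1, 1, 0),
  (0, 0, 0, -1, 1, -1, 1, 0),
  (0, 0, 0, -1, -1, 1, -1, 0),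
  (0, 0, 0, -1, 1, -1, -1, 0),
  (1, 0, -1, 1, 0, 1, 0, 0),
  (1, 0, 1, -1, 0, 1, 0, 0),
  (-1, 0, -1, 1, 0, 1, 0, 0),
  (-1, 0, 1, -1, 0, 1, 0, 0),
  (1, 0, -1, 1, 0, -1, 0, 0),
  (1, 0, 1, -1, 0, -1, 0, 0),
  (-1, 0, -1, 1, 0, -1, 0, 0),
  (-1, 0, 1, -1, 0, -1, 0, 0),
  (0, 0, 1, 0, 0, 1, -1, 1),
  (0, 0, 1, 0, 0, 1, 1, -1),
  (0, 0, -1, 0, 0, 1, -1, 1),
  (0, 0, -1, 0, 0, 1, 1, -1),
  (0, 0, 1, 0, 0, -1, -1, 1),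
  (0, 0, 1, 0, 0, -1, 1, -1),
  (0, 0, -1, 0, 0, -1, -1, 1),
  (0, 0, -1, 0, 0, -1, 1, -1),
  (-1, 1, 0, 0, 0, 1, 1, 0),
  (1, -1, 0, 0, 0, 1, 1, 0),
  (-1, 1, 0, 0, 0, 1, -1, 0),
  (1, -1, 0, 0, 0, 1, -1, 0),
  (-1, 1, 0, 0, 0, -1, 1, 0),
  (1, -1, 0, 0, 0, -1, 1, 0),
  (-1, 1, 0, 0, 0, -1, -1, 0),
  (1, -1, 0, 0, 0, -1, -1, 0),
  (1, 0, 0, 0, -1, 1, 0, 1),
  (1, 0, 0, 0, 1, -1, 0, 1),
  (-1, 0, 0, 0, -1, 1, 0, 1),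
  (-1, 0, 0, 0, 1, -1, 0, 1),
  (1, 0, 0, 0, -1, 1, 0, -1),
  (1, 0, 0, 0, 1, -1, 0, -1),
  (-1, 0, 0, 0, -1, 1, 0, -1),
  (-1, 0, 0, 0, 1, -1, 0, -1),
  (-1, 1, 1, 0, 0, 0, 0, 1),
  (1, -1, 1, 0, 0, 0, 0, 1),
  (-1, 1, -1, 0, 0, 0, 0, 1),
  (1, -1, -1, 0, 0, 0, 0, 1),
  (-1, 1, 1, 0, 0, 0, 0, -1),
  (1, -1, 1, 0, 0, 0, 0, -1),
  (-1, 1, -1, 0, 0, 0, 0, -1),
  (1, -1, -1, 0, 0, 0, 0, -1),
  (0, 0, -1, 1, 1, 0, 0, 1),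
  (0, 0, 1, -1, 1, 0, 0, 1),
  (0, 0, -1, 1, -1, 0, 0, 1),
  (0, 0, 1, -1, -1, 0, 0, 1),
  (0, 0, -1, 1, 1, 0, 0, -1),
  (0, 0, 1, -1, 1, 0, 0, -1),
  (0, 0, -1, 1, -1, 0, 0, -1),
  (0, 0, 1, -1, -1, 0, 0, -1),
  (0, 0, 0, 0, 0, 0, 2, 0),
  (1, 0, 1, 0, 1, 0, 1, 0),
  (1, 0, -1, 0, 1, 0, 1, 0)]

/-- Vertex number `x`. -/
def vt (x : ℕ) : ℤ × ℤ × ℤ × ℤ × ℤ × ℤ × ℤ × ℤ := vl.getD x (0, 0, 0, 0, 0, 0, 0, 0)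

/-- `4` times the inner product, as `P + Q φ`. -/
def dotv (x y : ℤ × ℤ × ℤ × ℤ × ℤ × ℤ × ℤ × ℤ) : ℤ × ℤ :=
  match x, y with
  | (a0, b0, a1, b1, a2, b2, a3, b3), (c0, d0, c1, d1, c2, d2, c3, d3) =>
    (a0 * c0 + b0 * d0 + (a1 * c1 + b1 * d1) + (a2 * c2 + b2 * d2) + (a3 * c3 + b3 * d3),
     a0 * d0 + b0 * c0 + b0 * d0 + (a1 * d1 + b1 * c1 + b1 * d1)
      + (a2 * d2 + b2 * c2 + b2 * d2) + (a3 * d3 + b3 * c3 + b3 * d3))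

/-- `4` times the inner product of two vertices. -/
def dt (x y : ℕ) : ℤ × ℤ := dotv (vt x) (vt y)

/-- `10` times the inner product with `p0 = (0, 0, 3, 4) / 5`. -/
def pd (x : ℕ) : ℤ × ℤ :=
  match vt x with
  | (_, _, _, _, a2, b2, a3, b3) => (3 * a2 + 4 * a3, 3 * b2 + 4 * b3)

/-- The possible values for different vertices. -/
def okd (p : ℤ × ℤ) : Bool :=
  p == (0, 2) || p == (2, 0) || p == (-2, 2) || p == (0, 0) || p == (2, -2) || p == (-2, 0)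
    || p == (0, -2) || p == (-4, 0)

/-- `P + Q φ ≤ 3 + 4 φ`, as an integer test. -/
def okp (p : ℤ × ℤ) : Bool :=
  decide (100000 * (p.1 - 3) + 161803 * (p.2 - 4) ≤ 0) &&
    decide (100000 * (p.1 - 3) + 161804 * (p.2 - 4) ≤ 0)

theorem dt_comm (x y : ℕ) : dt x y = dt y x := by
  have h : ∀ u v : ℤ × ℤ × ℤ × ℤ × ℤ × ℤ × ℤ × ℤ, dotv u v = dotv v u := by
    rintro ⟨a0, b0, a1, b1, a2, b2, a3, b3⟩ ⟨c0, d0, c1, d1, c2, d2, c3, d3⟩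
    simp only [dotv, Prod.mk.injEq]
    constructor <;> ring
  exact h _ _

theorem dt_self : ∀ x < 120, dt x x = (4, 0) := by
  decide +kernel

/-- The test for the pairs of different vertices, on the list. -/
private def dataA_test (l : List (ℤ × ℤ × ℤ × ℤ × ℤ × ℤ × ℤ × ℤ)) : Bool :=
  match l with
  | [] => true
  | u :: l => (l.all fun v => okd (dotv u v)) && dataA_test l

private theorem dataA_test_spec (l : List (ℤ × ℤ × ℤ × ℤ × ℤ × ℤ × ℤ × ℤ))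
    (h : dataA_test l = true) (x y : ℕ) (hxy : x < y) (hy : y < l.length)
    (d : ℤ × ℤ × ℤ × ℤ × ℤ × ℤ × ℤ × ℤ) :
    okd (dotv (l.getD x d) (l.getD y d)) = true := by
  induction l generalizing x y with
  | nil => simp at hy
  | cons u l ih =>
    simp only [dataA_test, Bool.and_eq_true, List.all_eq_true] at h
    obtain ⟨y', rfl⟩ : ∃ y', y = y' + 1 := ⟨y - 1, by omega⟩
    simp only [List.length_cons] at hy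
    rw [List.getD_cons_succ]
    rcases x with _ | x'
    · rw [List.getD_cons_zero]
      refine h.1 _ ?_
      rw [List.getD_eq_getElem _ _ (by omega)]
      exact List.getElem_mem _
    · rw [List.getD_cons_succ]
      exact ih h.2 x' y' (by omega) (by omega)

private theorem dataA_run : dataA_test vl = true := by
  decide +kernel

theorem dt_ne : ∀ x < 120, ∀ y < 120, x ≠ y → okd (dt x y) = true := by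
  intro x hx y hy hxy
  have hl : vl.length = 120 := by decide +kernel
  rcases Nat.lt_or_gt_of_ne hxy with h | h
  · exact dataA_test_spec vl dataA_run x y h (by omega) _
  · rw [dt_comm]
    exact dataA_test_spec vl dataA_run y x h (by omega) _

/-- The walls are pairwise at 60 degrees. -/
theorem dt_w : ∀ i < 3, ∀ j < 3, i ≠ j → dt (117 + i) (117 + j) = (2, 0) := by
  decide +kernel

theorem pd_ok : ∀ x < 117, okp (pd x) = true := by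
  decide +kernel

theorem pd_w : pd 117 = (8, 0) ∧ pd 118 = (7, 0) ∧ pd 119 = (7, 0) := by
  decide +kernel

end Pool.Agent.Lib.MP_b2bfca_co.K3
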