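import Pool.Agent.Lib.MP_b2bfca_co.K3.Tits

/-!
# Dihedral facts: chains of descents for two generators
-/

set_option autoImplicit false

namespace Pool.Agent.Lib.MP_b2bfca_co.K3

theorem dih_back (g : W) {i j : Fin 3} (h : i ≠ j) :
    rt g i = - rt (g * s i) i ∧ rt g j = rt (g * s i) j + ph • rt (g * s i) i := by
  have h1 := rt_mul_s_self (g * s i) i
  have h2 := rt_mul_s (g * s i) h.symm
  rw [mul_s_s] at h1 h2
  exact ⟨h1, h2⟩

/-- The first four steps. -/
theorem dih_aux {g : W} {i j : Fin 3} (hij : i ≠ j) (hi : Des g i) (hj : Des g j) :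
    Des (g * s i) j ∧ Des (g * s i * s j) i ∧ Des (g * s i * s j * s i) j ∧
      Des (g * s i * s j * s i * s j) i := by
  have e0 := dih_back g hij
  have e1 := dih_back (g * s i) hij.symm
  have e2 := dih_back (g * s i * s j) hij
  have e3 := dih_back (g * s i * s j * s i) hij.symm
  have hph := ph_mul_self
  have hp0 := ph_pos
  have c1 : Des (g * s i) j := by
    by_contra hcon
    have a1 := (tits (not_des_mul hi)).nonneg
    have a2 := (tits hcon).nonneg
    refine not_des_of_nonneg (g := g) (i := j) (fun k => ?_) hj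
    have b0 := congrFun e0.2 k
    simp only [Pi.add_apply, Pi.smul_apply, smul_eq_mul] at b0
    rw [b0]
    have := mul_nonneg hp0.le (a1 k)
    have := a2 k
    linarith
  have c2 : Des (g * s i * s j) i := by
    by_contra hcon
    have a1 := (tits (not_des_mul c1)).nonneg
    have a2 := (tits hcon).nonneg
    refine not_des_of_nonneg (g := g) (i := j) (fun k => ?_) hj
    have b0 := congrFun e0.2 k
    have b1 := congrFun e1.2 k
    have b1' := congrFun e1.1 k
    simp only [Pi.add_apply, Pi.smul_apply, smul_eq_mul, Pi.neg_apply] at b0 b1 b1'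
    rw [b0, b1, b1']
    have h1 := mul_nonneg hp0.le (a1 k)
    have h2 := mul_nonneg hp0.le (a2 k)
    linear_combination (h1 + h2) + (-(rt (g * s i * s j) j k)) * hph
  have c3 : Des (g * s i * s j * s i) j := by
    by_contra hcon
    have a1 := (tits (not_des_mul c2)).nonneg
    have a2 := (tits hcon).nonneg
    refine not_des_of_nonneg (g := g) (i := j) (fun k => ?_) hj
    have b0 := congrFun e0.2 k
    have b1 := congrFun e1.2 k
    have b1' := congrFun e1.1 k
    have b2 := congrFun e2.2 k
    have b2' := congrFun e2.1 k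
    simp only [Pi.add_apply, Pi.smul_apply, smul_eq_mul, Pi.neg_apply] at b0 b1 b1' b2 b2'
    rw [b0, b1, b1', b2, b2']
    have h1 := a1 k
    have h2 := mul_nonneg hp0.le (a2 k)
    generalize rt (g * s i * s j * s i) i k = p at *
    generalize rt (g * s i * s j * s i) j k = q at *
    have e : -(q + ph * p) + ph * (-p + ph * (q + ph * p)) = p + ph * q := by
      linear_combination (q + (ph + 1) * p) * hph
    rw [e]
    linarith
  have c4 : Des (g * s i * s j * s i * s j) i := by
    by_contra hcon
    have a1 := (tits (not_des_mul c3)).nonneg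
    have a2 := (tits hcon).nonneg
    refine not_des_of_nonneg (g := g) (i := j) (fun k => ?_) hj
    have b0 := congrFun e0.2 k
    have b1 := congrFun e1.2 k
    have b1' := congrFun e1.1 k
    have b2 := congrFun e2.2 k
    have b2' := congrFun e2.1 k
    have b3 := congrFun e3.2 k
    have b3' := congrFun e3.1 k
    simp only [Pi.add_apply, Pi.smul_apply, smul_eq_mul, Pi.neg_apply] at b0 b1 b1' b2 b2' b3 b3'
    rw [b0, b1, b1', b2, b2', b3, b3']
    have h1 := a1 k
    have h2 := a2 k
    generalize rt (g * s i * s j * s i * s j) i k = p at *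
    generalize rt (g * s i * s j * s i * s j) j k = q at *
    have e : (-((-q) + ph * (p + ph * q))) + ph * (-(p + ph * q) + ph * (-q + ph * (p + ph * q)))
        = p := by
      have e1 : ph * (p + ph * q) = ph * p + ph * q + q := by linear_combination q * hph
      have e2 : -q + ph * (p + ph * q) = ph * p + ph * q := by linarith
      have e3 : ph * (ph * p + ph * q) = (ph + 1) * p + (ph + 1) * q := by
        linear_combination (p + q) * hph
      rw [e2, e3]
      linear_combination (p) * hph
    first
      | exact e ▸ h2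
      | (rw [e]; exact h2)
  exact ⟨c1, c2, c3, c4⟩

theorem dih_braid (g : W) {i j : Fin 3} (h : i ≠ j) :
    g * s i * s j * s i * s j * s i = g * s j * s i * s j * s i * s j := by
  have := braid h
  simp only [mul_assoc] at this ⊢
  rw [this]

/-- If `i, j` are both descents of `g` then going down alternately works five times.
Proof: if e.g. `j` is not a descent of `g * s i`, then both `rt (g * s i) i, rt (g * s i) j ≥ 0`
and `rt g j = rt (g * s i * s i) j` is a nonnegative combination of them
(coefficients `ph, 1`; then `ph, ph`; then `1, ph`; then `1, 0`), contradiction to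
`not_des_of_nonneg`. -/
theorem dih {g : W} {i j : Fin 3} (hij : i ≠ j) (hi : Des g i) (hj : Des g j) :
    Des (g * s i) j ∧ Des (g * s i * s j) i ∧ Des (g * s i * s j * s i) j ∧
      Des (g * s i * s j * s i * s j) i ∧
      ¬ Des (g * s i * s j * s i * s j * s i) i ∧
      ¬ Des (g * s i * s j * s i * s j * s i) j := by
  obtain ⟨c1, c2, c3, c4⟩ := dih_aux hij hi hj
  obtain ⟨_, _, _, d4⟩ := dih_aux hij.symm hj hi
  refine ⟨c1, c2, c3, c4, not_des_mul c4, ?_⟩
  rw [dih_braid g hij]
  exact not_des_mul d4

/-- The first four steps upwards. -/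
theorem dih_up_aux {g : W} {i j : Fin 3} (hij : i ≠ j) (hi : ¬ Des g i) (hj : ¬ Des g j) :
    ¬ Des (g * s i) j ∧ ¬ Des (g * s i * s j) i ∧ ¬ Des (g * s i * s j * s i) j ∧
      ¬ Des (g * s i * s j * s i * s j) i := by
  have hph := ph_mul_self
  have hp0 := ph_pos
  have a1 := (tits hi).nonneg
  have a2 := (tits hj).nonneg
  have f1 : ∀ k, rt (g * s i) i k = - rt g i k := fun k => by
    rw [rt_mul_s_self, Pi.neg_apply]
  have f1' : ∀ k, rt (g * s i) j k = rt g j k + ph * rt g i k := fun k => by
    rw [rt_mul_s g hij.symm]; rfl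
  have f2 : ∀ k, rt (g * s i * s j) j k = - (rt g j k + ph * rt g i k) := fun k => by
    rw [rt_mul_s_self, Pi.neg_apply, f1']
  have f2' : ∀ k, rt (g * s i * s j) i k = ph * rt g i k + ph * rt g j k := fun k => by
    rw [rt_mul_s (g * s i) hij]
    simp only [Pi.add_apply, Pi.smul_apply, smul_eq_mul, f1, f1']
    linear_combination (rt g i k) * hph
  have f3 : ∀ k, rt (g * s i * s j * s i) i k = - (ph * rt g i k + ph * rt g j k) := fun k => by
    rw [rt_mul_s_self, Pi.neg_apply, f2']
  have f3' : ∀ k, rt (g * s i * s j * s i) j k = rt g i k + ph * rt g j k := fun k => by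
    rw [rt_mul_s (g * s i * s j) hij.symm]
    simp only [Pi.add_apply, Pi.smul_apply, smul_eq_mul, f2, f2']
    linear_combination (rt g i k + rt g j k) * hph
  have f4' : ∀ k, rt (g * s i * s j * s i * s j) i k = rt g j k := fun k => by
    rw [rt_mul_s (g * s i * s j * s i) hij]
    simp only [Pi.add_apply, Pi.smul_apply, smul_eq_mul, f3, f3']
    linear_combination (rt g j k) * hph
  refine ⟨not_des_of_nonneg fun k => ?_, not_des_of_nonneg fun k => ?_,
    not_des_of_nonneg fun k => ?_, not_des_of_nonneg fun k => ?_⟩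
  · rw [f1']
    have := mul_nonneg hp0.le (a1 k)
    linarith [a2 k]
  · rw [f2']
    have := mul_nonneg hp0.le (a1 k)
    have := mul_nonneg hp0.le (a2 k)
    linarith
  · rw [f3']
    have := mul_nonneg hp0.le (a2 k)
    linarith [a1 k]
  · rw [f4']
    exact a2 k

/-- If neither `i` nor `j` is a descent of `g` then going up alternately works five times. -/
theorem up {g : W} {i j : Fin 3} (hij : i ≠ j) (hi : ¬ Des g i) (hj : ¬ Des g j) :
    ¬ Des (g * s i) j ∧ ¬ Des (g * s i * s j) i ∧ ¬ Des (g * s i * s j * s i) j ∧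
      ¬ Des (g * s i * s j * s i * s j) i ∧
      Des (g * s i * s j * s i * s j * s i) i ∧
      Des (g * s i * s j * s i * s j * s i) j := by
  obtain ⟨c1, c2, c3, c4⟩ := dih_up_aux hij hi hj
  obtain ⟨_, _, _, d4⟩ := dih_up_aux hij.symm hj hi
  refine ⟨c1, c2, c3, c4, des_mul.2 c4, ?_⟩
  rw [dih_braid g hij]
  exact des_mul.2 d4

theorem dih_noviol : ∀ (n : ℕ) (g : W) (i j l : Fin 3), len g = n → i ≠ j → i ≠ l → j ≠ l →
    Des g i → Des g j → ¬ Des (g * s i) l := by
  intro n
  induction n using Nat.strong_induction_on with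
  | _ n ih =>
    intro g i j l hn hij hil hjl hi hj hl
    obtain ⟨c1, c2, c3, _⟩ := dih_aux hij hi hj
    obtain ⟨d1, _⟩ := dih_aux hjl c1 hl
    have l1 : len (g * s i) < len g := hi
    have l2 : len (g * s i * s j) < len (g * s i) := c1
    exact ih (len (g * s i * s j)) (by omega) (g * s i * s j) i l j rfl hil hij hjl.symm c2 d1 c3

/-- No violation: if `i, j` are descents of `g` then the third label `l` is neither a descent of
`g` nor of `g * s i`.
Proof.  Call `(g; i, j, l)` a violation if `Des g i`, `Des g j`, `Des (g * s i) l`.  A violation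
gives a violation `(g * s i * s j; i, l, j)` of smaller length: `dih` for `(g; i, j)` gives
`Des (g s_i) j`; with `Des (g s_i) l`, `dih` for `(g s_i; j, l)` gives `Des (g s_i s_j) l`; `dih`
for `(g; i, j)` gives `Des (g s_i s_j) i` and `Des (g s_i s_j s_i) j`.  Strong induction on
`len g`.  And `Des g l` together with `Des g i` gives `Des (g s_i) l` by `dih` for `(g; i, l)`. -/
theorem noviol {g : W} {i j l : Fin 3} (hij : i ≠ j) (hil : i ≠ l) (hjl : j ≠ l)
    (hi : Des g i) (hj : Des g j) : ¬ Des (g * s i) l ∧ ¬ Des g l := by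
  have h1 := dih_noviol (len g) g i j l rfl hij hil hjl hi hj
  exact ⟨h1, fun hl => h1 (dih_aux hil hi hl).1⟩

end Pool.Agent.Lib.MP_b2bfca_co.K3
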