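import Pool.Agent.Lib.MP_b2bfca_co.K3.EdgesI

/-!
# The packing of a good set: number of tangencies
-/

set_option autoImplicit false

namespace Pool.Agent.Lib.MP_b2bfca_co.K3

open Finset Classical

variable {V ι : Type} [AddCommGroup V] [Module ℝ V] [Fintype ι] (C : Cell V ι)

namespace Cell

/-- For fixed `g` the number of pairs of `Ed` with `D g ∩ T x ∩ T y = ∅` is `684, 654, 627` for
`|D g| = 0, 1, 2`. -/
theorem card_e (g : W) :
    (C.Ed.filter fun p => Disjoint (D g) (C.T p.1 ∩ C.T p.2)).card =
      if (D g).card = 0 then 684 else if (D g).card = 1 then 654 else 627 := by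
  have hle := card_D_le g
  have hc : (D g).card = 0 ∨ (D g).card = 1 ∨ (D g).card = 2 := by omega
  rcases hc with hc | hc | hc
  · rw [if_pos hc, ← C.e0]
    rw [card_eq_zero] at hc
    rw [hc]
    congr 1
    refine filter_true_of_mem fun p _ => disjoint_empty_left _
  · rw [if_neg (by omega), if_pos hc]
    obtain ⟨i, hi⟩ := card_eq_one.1 hc
    rw [← C.e1 i, hi]
    congr 1
    refine filter_congr fun p _ => ?_
    rw [disjoint_singleton_left, mem_inter]
  · rw [if_neg (by omega), if_neg (by omega)]
    obtain ⟨i, j, hij, hi⟩ := card_eq_two.1 hc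
    rw [← C.e2 i j hij, hi]
    congr 1
    refine filter_congr fun p _ => ?_
    rw [disjoint_insert_left, disjoint_singleton_left, mem_inter, mem_inter]

theorem card_IA {O : Finset W} (hO : Good O) : (C.IA O).card + 27 * qq O = 654 * O.card + 30 := by
  have h1 : (C.IA O).card =
      ∑ g ∈ O, (C.Ed.filter fun p => Disjoint (D g) (C.T p.1 ∩ C.T p.2)).card := by
    unfold IA
    rw [card_filter, sum_product]
    refine sum_congr rfl fun g _ => ?_
    rw [card_filter]
  have h2 := hO.sum_D fun n => if n = 0 then 684 else if n = 1 then 654 else 627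
  have h3 : ∑ g ∈ O, (C.Ed.filter fun p => Disjoint (D g) (C.T p.1 ∩ C.T p.2)).card =
      ∑ g ∈ O, if (D g).card = 0 then 684 else if (D g).card = 1 then 654 else 627 :=
    sum_congr rfl fun g _ => C.card_e g
  rw [h1, h3]
  simp only [one_ne_zero, if_false, if_true, OfNat.ofNat_ne_zero, OfNat.ofNat_ne_one] at h2
  omega

theorem card_IC {O : Finset W} : (C.IC O).card = 12 * (bd O).card := by
  unfold IC
  rw [card_biUnion]
  · have h : ∀ p ∈ bd O, ((C.nb p.1).image fun x => (p, x)).card = 12 := by
      intro p _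
      rw [card_image_of_injective _ (Prod.mk_right_injective p), C.nb_card]
    rw [sum_congr rfl h, sum_const, smul_eq_mul, mul_comm]
  · intro p _ q _ hpq
    rw [Function.onFun, disjoint_left]
    intro z hz hz'
    obtain ⟨x, -, rfl⟩ := mem_image.1 hz
    obtain ⟨y, -, h⟩ := mem_image.1 hz'
    exact hpq (congrArg Prod.fst h).symm

/-- `|Q| = 666 N - 51 q + 54`. -/
theorem card_Q {O : Finset W} (hO : Good O) : (C.Q O).card + 51 * qq O = 666 * O.card + 54 := by
  have h1 := C.card_IA hO
  have h2 := C.card_IC (O := O)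
  have h3 := hO.card_bd
  have h4 : (C.Q O).card = (C.IA O).card + (C.IC O).card := by
    rw [Q, Finset.card_union_of_disjoint (C.disj_AC hO),
      Finset.card_image_of_injOn C.fA_inj, Finset.card_image_of_injOn (C.fC_inj hO)]
  omega

end Cell

end Pool.Agent.Lib.MP_b2bfca_co.K3
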