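import Pool.Agent.Lib.MP_b2bfca_co.K3.PackS

/-!
# The packing of a good set: tangencies
-/

set_option autoImplicit false

namespace Pool.Agent.Lib.MP_b2bfca_co.K3

open Finset Classical

variable {V ι : Type} [AddCommGroup V] [Module ℝ V] [Fintype ι] (C : Cell V ι)

namespace Cell

noncomputable section

/-- Index set of the tangencies of block balls. -/
def IA (O : Finset W) : Finset (W × (ι × ι)) :=
  (O ×ˢ C.Ed).filter fun p => Disjoint (D p.1) (C.T p.2.1 ∩ C.T p.2.2)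

/-- The pair of balls of an index. -/
def fA (p : W × (ι × ι)) : V × V := (C.rep p.1 (C.a p.2.1), C.rep p.1 (C.a p.2.2))

/-- Index set of the tangencies of cap balls. -/
def IC (O : Finset W) : Finset ((Fin 3 × W) × ι) :=
  (bd O).biUnion fun p => (C.nb p.1).image fun x => (p, x)

/-- The pair of balls of an index. -/
def fC (p : (Fin 3 × W) × ι) : V × V :=
  (C.rep p.1.2 (C.u p.1.1), C.rep (p.1.2 * s p.1.1) (C.a p.2))

/-- The tangent pairs. -/
def Q (O : Finset W) : Finset (V × V) := (C.IA O).image C.fA ∪ (C.IC O).image C.fC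

theorem edgesI_mem_IA {O : Finset W} {p : W × (ι × ι)} : p ∈ C.IA O ↔
    (p.1 ∈ O ∧ p.2 ∈ C.Ed) ∧ Disjoint (D p.1) (C.T p.2.1 ∩ C.T p.2.2) := by
  rw [IA, mem_filter, mem_product]

theorem edgesI_mem_IC {O : Finset W} {p : (Fin 3 × W) × ι} : p ∈ C.IC O ↔
    p.1 ∈ bd O ∧ p.2 ∈ C.nb p.1.1 := by
  rw [IC, mem_biUnion]
  constructor
  · rintro ⟨q, hq, hp⟩
    rw [mem_image] at hp
    obtain ⟨x, hx, rfl⟩ := hp
    exact ⟨hq, hx⟩
  · rintro ⟨h1, h2⟩
    exact ⟨p.1, h1, mem_image.2 ⟨p.2, h2, rfl⟩⟩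

theorem edgesI_SA {O : Finset W} {g : W} (hg : g ∈ O) (x : ι) : C.rep g (C.a x) ∈ C.SA O :=
  mem_image.2 ⟨(g, x), mem_product.2 ⟨hg, mem_univ _⟩, rfl⟩

theorem edgesI_SC {O : Finset W} {p : Fin 3 × W} (hp : p ∈ bd O) :
    C.rep p.2 (C.u p.1) ∈ C.SC O :=
  mem_image.2 ⟨p, hp, rfl⟩

theorem edgesI_ne {O : Finset W} (hO : Good O) {v w : V} (hv : v ∈ C.SC O) (hw : w ∈ C.SA O) :
    v ≠ w := by
  rintro rfl
  have h1 := C.SC_SA hO hv hw
  have h2 := C.S_unit v (mem_union_left _ hw)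
  linarith

theorem edgesI_tangent (w : W) (i : Fin 3) {x : ι} (hx : x ∈ C.nb i) :
    C.B (C.rep w (C.u i)) (C.rep (w * s i) (C.a x)) = -1 := by
  rw [C.rep_mul_apply, C.rep_isom, C.rep_s]
  have h1 : C.B (C.u i) (C.refl i (C.a x)) = C.B (C.refl i (C.u i)) (C.a x) := by
    conv_lhs => rw [← C.refl_isom i, C.refl_refl]
  rw [h1, C.refl_apply, C.ur]
  have h2 := C.nb_adj i x hx
  have h3 : C.u i - (2 * -C.c) • C.r i = C.u i + (2 * C.c) • C.r i := by module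
  rw [h3]
  exact h2

/-- All pairs of `Q` are tangent pairs of balls of the packing. -/
theorem Q_mem {O : Finset W} (hO : Good O) : ∀ p ∈ C.Q O,
    p.1 ∈ C.S O ∧ p.2 ∈ C.S O ∧ C.B p.1 p.2 = -1 := by
  intro p hp
  rw [Q, mem_union, mem_image, mem_image] at hp
  rcases hp with ⟨q, hq, rfl⟩ | ⟨q, hq, rfl⟩
  · rw [edgesI_mem_IA] at hq
    refine ⟨mem_union_left _ (C.edgesI_SA hq.1.1 _), mem_union_left _ (C.edgesI_SA hq.1.1 _), ?_⟩
    show C.B (C.rep q.1 (C.a q.2.1)) (C.rep q.1 (C.a q.2.2)) = -1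
    rw [C.rep_isom]
    exact C.ed q.2 hq.1.2
  · rw [edgesI_mem_IC] at hq
    have h1 := (mem_bd.1 hq.1).2
    refine ⟨mem_union_right _ (C.edgesI_SC hq.1), mem_union_left _ (C.edgesI_SA h1 _), ?_⟩
    exact C.edgesI_tangent q.1.2 q.1.1 hq.2

/-- If `rep g (a x) = rep g' (a x')` then `x = x'` and `g⁻¹ g' ∈ Par (T x)`. -/
theorem rep_a_inj {g g' : W} {x x' : ι} (h : C.rep g (C.a x) = C.rep g' (C.a x')) :
    x = x' ∧ g⁻¹ * g' ∈ Par (C.T x) := by
  have h1 : C.rep (g'⁻¹ * g) (C.a x) = C.a x' := by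
    rw [C.rep_mul_apply, h, C.rep_inv_apply]
  rcases C.sepA x x' (g'⁻¹ * g) with ⟨h2, h3⟩ | h2
  · refine ⟨h2, ?_⟩
    have h4 := (Par (C.T x)).inv_mem h3
    rwa [mul_inv_rev, inv_inv] at h4
  · rw [h1, C.aa] at h2
    linarith

/-- If `k` fixes `a x` and `a y` then `k ∈ Par (T x ∩ T y)`: apply `stab` to `a x + a y`. -/
theorem par_inter {x y : ι} {k : W} (h1 : C.rep k (C.a x) = C.a x)
    (h2 : C.rep k (C.a y) = C.a y) : k ∈ Par (C.T x ∩ C.T y) := by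
  refine C.stab (x := C.a x + C.a y) (y := C.a C.x0) ?_ C.open_x0 ?_ ?_
  · intro i
    have e1 := C.cham_a x i
    have e2 := C.cham_a y i
    rw [map_add, LinearMap.add_apply]
    linarith
  · intro i hi
    have e1 := C.cham_a x i
    have e2 := C.cham_a y i
    rw [map_add, LinearMap.add_apply] at hi
    rw [mem_inter]
    constructor
    · by_contra hc
      have := C.aT' x i hc
      linarith
    · by_contra hc
      have := C.aT' y i hc
      linarith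
  · rw [map_add, h1, h2]

/-- `fA` is injective on `IA O` (`rep_a_inj`, `par_inter`, `min_unique`). -/
theorem fA_inj {O : Finset W} : Set.InjOn C.fA (C.IA O) := by
  rintro ⟨g, x, y⟩ hp ⟨g', x', y'⟩ hp' h
  rw [mem_coe, edgesI_mem_IA] at hp hp'
  simp only [fA, Prod.mk.injEq] at h
  obtain ⟨h1, h2⟩ := C.rep_a_inj h.1
  obtain ⟨h3, h4⟩ := C.rep_a_inj h.2
  subst h1
  subst h3
  have hk : g⁻¹ * g' ∈ Par (C.T x ∩ C.T y) := C.par_inter (C.rep_a h2) (C.rep_a h4)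
  have hg : ∀ t ∈ C.T x ∩ C.T y, ¬ Des g t := fun t ht hd =>
    (Finset.disjoint_left.1 hp.2) (mem_D.2 hd) ht
  have hg' : ∀ t ∈ C.T x ∩ C.T y, ¬ Des g' t := fun t ht hd =>
    (Finset.disjoint_left.1 hp'.2) (mem_D.2 hd) ht
  rw [min_unique hg hg' hk]

theorem fC_inj {O : Finset W} (hO : Good O) : Set.InjOn C.fC (C.IC O) := by
  rintro ⟨p, x⟩ hp ⟨p', x'⟩ hp' h
  rw [mem_coe, edgesI_mem_IC] at hp hp'
  simp only [fC, Prod.mk.injEq] at h
  have h1 : p = p' := by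
    by_contra hne
    have e1 := C.SC_SC hO hp.1 hp'.1 hne
    rw [h.1] at e1
    have e2 := C.S_unit _ (mem_union_right _ (C.edgesI_SC hp'.1))
    linarith
  subst h1
  obtain ⟨h2, -⟩ := C.rep_a_inj h.2
  rw [h2]

theorem disj_AC {O : Finset W} (hO : Good O) :
    Disjoint ((C.IA O).image C.fA) ((C.IC O).image C.fC) := by
  rw [Finset.disjoint_left]
  intro v hv hv'
  rw [mem_image] at hv hv'
  obtain ⟨p, hp, rfl⟩ := hv
  obtain ⟨q, hq, h⟩ := hv'
  rw [edgesI_mem_IA] at hp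
  rw [edgesI_mem_IC] at hq
  exact C.edgesI_ne hO (C.edgesI_SC hq.1) (C.edgesI_SA hp.1.1 p.2.1) (congrArg Prod.fst h)

/-- No pair occurs in both orders. -/
theorem Q_swap {O : Finset W} (hO : Good O) : ∀ p ∈ C.Q O, (p.2, p.1) ∉ C.Q O := by
  intro p hp hp'
  rw [Q, mem_union, mem_image, mem_image] at hp hp'
  rcases hp with ⟨q, hq, rfl⟩ | ⟨q, hq, rfl⟩
  · rw [edgesI_mem_IA] at hq
    rcases hp' with ⟨q', hq', h⟩ | ⟨q', hq', h⟩
    · rw [edgesI_mem_IA] at hq'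
      simp only [fA, Prod.mk.injEq] at h
      have h1 := (C.rep_a_inj h.1).1
      have h2 := (C.rep_a_inj h.2).1
      refine C.ed' q.2 hq.1.2 ?_
      rw [← h1, ← h2]
      exact hq'.1.2
    · rw [edgesI_mem_IC] at hq'
      exact C.edgesI_ne hO (C.edgesI_SC hq'.1) (C.edgesI_SA hq.1.1 q.2.2) (congrArg Prod.fst h)
  · rw [edgesI_mem_IC] at hq
    rcases hp' with ⟨q', hq', h⟩ | ⟨q', hq', h⟩
    · rw [edgesI_mem_IA] at hq'
      exact C.edgesI_ne hO (C.edgesI_SC hq.1) (C.edgesI_SA hq'.1.1 q'.2.2)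
        (congrArg Prod.snd h).symm
    · rw [edgesI_mem_IC] at hq'
      exact C.edgesI_ne hO (C.edgesI_SC hq.1) (C.edgesI_SA (mem_bd.1 hq'.1).2 q'.2)
        (congrArg Prod.snd h).symm

end

end Cell

end Pool.Agent.Lib.MP_b2bfca_co.K3
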