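import Pool.Agent.Lib.MP_b2bfca_co.K3.ModelA
import Pool.Agent.Lib.MP_b2bfca_co.K3.DataB
import Pool.Agent.Lib.MP_b2bfca_co.K3.Cell

/-!
# The 600-cell as a `Cell`
-/

set_option autoImplicit false

namespace Pool.Agent.Lib.MP_b2bfca_co.K3

open Finset Classical

noncomputable section

/-- The parameter `c = τ (φ - 1)`, `c² = 3 - φ`. -/
def cc : ℝ := tau * (ph - 1)

theorem cc_pos : 0 < cc :=
  mul_pos tau_pos (sub_pos.2 one_lt_ph)

theorem cc_sq : cc ^ 2 = 3 - ph := by
  unfold cc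
  linear_combination (ph - 1) ^ 2 * tau_sq + (ph + 1) * ph_sq

theorem modelB_rr_self (i : Fin 3) : LB (rv i) (rv i) = 1 := by
  rw [rv_rv, dt_self (117 + (i : ℕ)) (by omega)]
  push_cast
  linear_combination -ph_sq

theorem modelB_rr_ne (i j : Fin 3) (h : i ≠ j) : LB (rv i) (rv j) = -(ph / 2) := by
  rw [rv_rv, dt_w (i : ℕ) (by omega) (j : ℕ) (by omega) (fun e => h (Fin.ext e))]
  push_cast
  linear_combination -ph_sq

theorem modelB_ar_self (i : Fin 3) : LB (av (117 + i)) (rv i) = cc := by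
  rw [av_rv, dt_self (117 + (i : ℕ)) (by omega)]
  push_cast
  unfold cc
  linear_combination -tau * ph_sq

theorem modelB_ar_ne (i j : Fin 3) (h : i ≠ j) : LB (av (117 + i)) (rv j) = -(ph * cc) := by
  rw [av_rv, dt_w (i : ℕ) (by omega) (j : ℕ) (by omega) (fun e => h (Fin.ext e))]
  push_cast
  unfold cc
  ring

theorem modelB_aa_ne (i j : Fin 3) (h : i ≠ j) :
    LB (av (117 + i)) (av (117 + j)) = -(2 * ph) - 1 := by
  rw [av_av, dt_w (i : ℕ) (by omega) (j : ℕ) (by omega) (fun e => h (Fin.ext e))]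
  push_cast
  linear_combination 2 * ph_sq

/-- The mirror images of the balls inside the walls. -/
def uv (i : Fin 3) : Fin 5 → ℝ := av (117 + i) - (2 * cc) • rv i

theorem uv_rv (i j : Fin 3) : LB (uv i) (rv j) = if i = j then -cc else 0 := by
  unfold uv
  rw [map_sub, LinearMap.sub_apply, map_smul, LinearMap.smul_apply, smul_eq_mul]
  by_cases h : i = j
  · subst h
    rw [modelB_ar_self, modelB_rr_self, if_pos rfl]
    ring
  · rw [modelB_ar_ne i j h, modelB_rr_ne i j h, if_neg h]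
    ring

theorem uv_self (i : Fin 3) : LB (uv i) (uv i) = 1 := by
  have h1 : LB (uv i) (uv i) = LB (uv i) (av (117 + i)) - 2 * cc * LB (uv i) (rv i) := by
    conv_lhs => rw [show uv i = av (117 + i) - (2 * cc) • rv i from rfl]
    rw [map_sub, map_smul, smul_eq_mul]
    rfl
  have h2 : LB (uv i) (av (117 + i)) = 1 - 2 * cc * cc := by
    rw [LB_symm]
    unfold uv
    rw [map_sub, map_smul, smul_eq_mul, modelB_ar_self, av_self (by omega)]
  rw [h1, h2, uv_rv, if_pos rfl]
  ring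

theorem uv_uv (i j : Fin 3) (h : i ≠ j) : LB (uv i) (uv j) ≤ 1 := by
  have h1 : LB (uv i) (uv j) = LB (uv i) (av (117 + j)) - 2 * cc * LB (uv i) (rv j) := by
    rw [show uv j = av (117 + j) - (2 * cc) • rv j from rfl]
    rw [map_sub, map_smul, smul_eq_mul]
  have h2 : LB (uv i) (av (117 + j)) = -(2 * ph) - 1 - 2 * cc * (-(ph * cc)) := by
    rw [LB_symm]
    unfold uv
    rw [map_sub, map_smul, smul_eq_mul, modelB_ar_ne j i (Ne.symm h),
      modelB_aa_ne j i (Ne.symm h)]
  rw [h1, h2, uv_rv, if_neg h]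
  have h3 := cc_sq
  have h4 : -(2 * ph) - 1 - 2 * cc * (-(ph * cc)) - 2 * cc * 0 = 2 * ph - 3 := by
    linear_combination 2 * ph * h3 - 2 * ph_sq
  rw [h4]
  linarith [ph_lt_two]

/-- The light-like vector of the point at infinity: `LB nv x = - x 3`. -/
def nv : Fin 5 → ℝ := ![0, 0, 0, 0, 2]

theorem nv_apply (x : Fin 5 → ℝ) : LB nv x = - x 3 := by
  rw [LB_apply]
  simp [nv]

private theorem modelB_ph_lo : (1.61803 : ℝ) ≤ ph := by
  by_contra h
  push Not at h
  nlinarith [ph_sq, one_lt_ph]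

private theorem modelB_ph_hi : ph ≤ (1.61804 : ℝ) := by
  by_contra h
  push Not at h
  nlinarith [ph_sq, one_lt_ph]

private theorem modelB_rv3 (i : Fin 3) :
    rv i 3 = ph - tau * (((pd (117 + i)).1 + (pd (117 + i)).2 * ph) / 10) := by
  rw [← cr_pd]
  unfold rv emb
  simp only [Pi.smul_apply, smul_eq_mul]
  change ph - (3 * (tau * cr (117 + i) 2) + 4 * (tau * cr (117 + i) 3)) / 5 = _
  ring

private theorem modelB_av3 (x : ℕ) :
    av x 3 = ph * tau - 2 * ph * (((pd x).1 + (pd x).2 * ph) / 10) := by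
  rw [← cr_pd]
  unfold av emb
  simp only [Pi.smul_apply, smul_eq_mul]
  change ph * tau - (3 * (2 * ph * cr x 2) + 4 * (2 * ph * cr x 3)) / 5 = _
  ring

private theorem modelB_pd (i : Fin 3) : ∃ q : ℝ, ((pd (117 + i)).1 + (pd (117 + i)).2 * ph) / 10 = q ∧
    0.7 ≤ q ∧ q ≤ 0.8 := by
  obtain ⟨h0, h1, h2⟩ := pd_w
  fin_cases i
  · refine ⟨0.8, ?_, by norm_num, by norm_num⟩
    change (((pd 117).1 : ℝ) + (pd 117).2 * ph) / 10 = 0.8
    rw [h0]
    norm_num
  · refine ⟨0.7, ?_, by norm_num, by norm_num⟩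
    change (((pd 118).1 : ℝ) + (pd 118).2 * ph) / 10 = 0.7
    rw [h1]
    norm_num
  · refine ⟨0.7, ?_, by norm_num, by norm_num⟩
    change (((pd 119).1 : ℝ) + (pd 119).2 * ph) / 10 = 0.7
    rw [h2]
    norm_num

theorem nv_rv (i : Fin 3) : LB nv (rv i) ≤ 0 := by
  rw [nv_apply, modelB_rv3]
  obtain ⟨q, hq, h1, h2⟩ := modelB_pd i
  rw [hq]
  have h3 : tau * 0.8 ≤ ph := by
    apply le_of_sq_le_sq _ ph_pos.le
    rw [mul_pow, tau_sq, ph_sq]
    nlinarith [modelB_ph_lo]
  have h4 : tau * q ≤ tau * 0.8 := mul_le_mul_of_nonneg_left h2 tau_pos.le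
  linarith

theorem nv_av {x : ℕ} (hx : x < 117) : LB nv (av x) < 0 := by
  rw [nv_apply, modelB_av3]
  have h := pd_ok x hx
  unfold okp at h
  rw [Bool.and_eq_true, decide_eq_true_eq, decide_eq_true_eq] at h
  obtain ⟨h1, h2⟩ := h
  have h1' : (100000 : ℝ) * ((pd x).1 - 3) + 161803 * ((pd x).2 - 4) ≤ 0 := by exact_mod_cast h1
  have h2' : (100000 : ℝ) * ((pd x).1 - 3) + 161804 * ((pd x).2 - 4) ≤ 0 := by exact_mod_cast h2
  have h3 : ((pd x).1 : ℝ) + (pd x).2 * ph ≤ 3 + 4 * ph := by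
    rcases le_total (((pd x).2 : ℝ) - 4) 0 with h4 | h4
    · have := mul_le_mul_of_nonpos_left modelB_ph_lo h4
      nlinarith
    · have := mul_le_mul_of_nonneg_left modelB_ph_hi h4
      nlinarith
  have h5 : (3 + 4 * ph) / 5 < tau := by
    apply lt_of_pow_lt_pow_left₀ 2 tau_pos.le
    rw [tau_sq, div_pow, div_lt_iff₀ (by norm_num)]
    nlinarith [ph_sq, modelB_ph_hi]
  have h6 : ph * (((pd x).1 + (pd x).2 * ph) / 5) ≤ ph * ((3 + 4 * ph) / 5) :=
    mul_le_mul_of_nonneg_left (by linarith) ph_pos.le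
  have h7 : ph * ((3 + 4 * ph) / 5) < ph * tau := mul_lt_mul_of_pos_left h5 ph_pos
  linarith

theorem nv_uv (i : Fin 3) : LB nv (uv i) < 0 := by
  have h1 : LB nv (uv i) = LB nv (av (117 + i)) - 2 * cc * LB nv (rv i) := by
    unfold uv
    rw [map_sub, map_smul, smul_eq_mul]
  rw [h1, nv_apply, nv_apply, modelB_av3, modelB_rv3]
  obtain ⟨q, hq, h2, h3⟩ := modelB_pd i
  rw [hq]
  unfold cc
  have h4 : -(ph * tau - 2 * ph * q) - 2 * (tau * (ph - 1)) * -(ph - tau * q) =
      -(tau * (ph - 2) + q * (2 * ph - 2)) := by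
    have e1 := tau_sq
    have e2 := ph_sq
    linear_combination (-2 * q * (ph - 1)) * e1 + (2 * tau - 2 * q) * e2
  rw [h4]
  have h5 : tau * (2 - ph) < 0.7 * (2 * ph - 2) := by
    have hp : 0 < 0.7 * (2 * ph - 2) := by linarith [modelB_ph_lo]
    apply lt_of_pow_lt_pow_left₀ 2 hp.le
    rw [mul_pow, tau_sq]
    have e2 := ph_sq
    have e3 : (ph + 2) * (2 - ph) ^ 2 = 7 - 4 * ph := by
      linear_combination (ph - 1) * e2
    have e4 : (0.7 * (2 * ph - 2)) ^ 2 = 1.96 * (2 - ph) := by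
      linear_combination 1.96 * e2
    rw [e3, e4]
    linarith [modelB_ph_lo]
  have h6 : 0.7 * (2 * ph - 2) ≤ q * (2 * ph - 2) :=
    mul_le_mul_of_nonneg_right h2 (by linarith [modelB_ph_lo])
  linarith

/-- The cell. -/
def cell : Cell (Fin 5 → ℝ) (Fin 117) where
  B := LB
  symm := LB_symm
  r := rv
  gram := by
    intro i j
    by_cases h : i = j
    · subst h
      rw [if_pos rfl, modelB_rr_self]
    · rw [if_neg h, modelB_rr_ne i j h]
  a := fun x => av x
  T := TD
  u := uv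
  n := nv
  c := cc
  aa := fun x => av_self (by omega)
  ab := fun x y h => av_av_le (by omega) (by omega) (fun e => h (Fin.ext e))
  aT := by
    intro x i h
    exact av_rv_zero (by simpa [TD] using h)
  aT' := by
    intro x i h
    exact av_rv_le x.2 (by simpa [TD] using h)
  c_pos := cc_pos
  c_sq := by
    rw [cc_sq]
    linarith [ph_lt_two]
  ur := by
    intro i
    rw [uv_rv, if_pos rfl]
  ur' := by
    intro i j h
    rw [uv_rv, if_neg h]
  uu := uv_self
  uu' := uv_uv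
  ua := by
    intro i x
    have h1 : uv i + (2 * cc) • rv i = av (117 + i) := by
      unfold uv
      abel
    rw [h1]
    exact av_av_le (by omega) (by omega) (by omega)
  nr := nv_rv
  na := fun x => nv_av x.2
  nu := nv_uv
  x0 := TD_empty.choose
  hx0 := TD_empty.choose_spec
  nb := nbD
  nb_card := nbD_card
  nb_adj := by
    intro i x hx
    have h1 : uv i + (2 * cc) • rv i = av (117 + i) := by
      unfold uv
      abel
    rw [h1, LB_symm]
    exact av_av_eq (by simpa [nbD] using hx)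
  v0 := by simp
  v1 := fun i => by
    convert TD_v1 i
  v2 := fun i j h => by
    convert TD_v2 i j h
  Ed := exists_Ed.choose
  ed := fun p hp => av_av_eq (exists_Ed.choose_spec.1 p hp).2
  ed' := by
    intro p hp h
    have h1 := (exists_Ed.choose_spec.1 p hp).1
    have h2 := (exists_Ed.choose_spec.1 _ h).1
    exact absurd h1 (not_lt.mpr h2.le)
  e0 := exists_Ed.choose_spec.2.1
  e1 := fun i => by
    convert exists_Ed.choose_spec.2.2.1 i
  e2 := fun i j h => by
    convert exists_Ed.choose_spec.2.2.2 i j h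

end

end Pool.Agent.Lib.MP_b2bfca_co.K3
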