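import Mathlib

/-!
# The numerical limit argument
-/

set_option autoImplicit false

namespace Pool.Agent.Lib.MP_b2bfca_co.K3

theorem Num_sq : √2 * √2 = (2 : ℝ) := Real.mul_self_sqrt (by norm_num)

theorem Num_lo : (141421 / 100000 : ℝ) < √2 := by
  rw [Real.lt_sqrt (by norm_num)]; norm_num

theorem Num_hi : √2 < (141422 / 100000 : ℝ) := by
  rw [Real.sqrt_lt' (by norm_num)]; norm_num

/-- Decimal form: `c* > 6.3084`. -/
theorem c_gt : (63084 / 10000 : ℝ) < (2562 + 51 * √2) / (402 + 11 * √2) := by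
  have h1 := Num_lo
  have h2 := Num_hi
  rw [lt_div_iff₀ (by linarith)]
  linarith

theorem Num_c_lt : (2562 + 51 * √2) / (402 + 11 * √2) < (63085 / 10000 : ℝ) := by
  have h1 := Num_lo
  have h2 := Num_hi
  rw [div_lt_iff₀ (by linarith)]
  linarith

theorem Num_id : (106 * ((2562 + 51 * √2) / (402 + 11 * √2)) - 666) * (4 + 2 * √2)
    = 11 * ((2562 + 51 * √2) / (402 + 11 * √2)) - 51 := by
  have h1 := Num_lo
  have hs := Num_sq
  have hne : (402 + 11 * √2) ≠ 0 := by linarith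
  set s := √2 with hsdef
  have hc : (2562 + 51 * s) / (402 + 11 * s) * (402 + 11 * s) = 2562 + 51 * s :=
    div_mul_cancel₀ _ hne
  set c := (2562 + 51 * s) / (402 + 11 * s) with hcdef
  have key : ((106 * c - 666) * (4 + 2 * s)) * (402 + 11 * s)
      = (11 * c - 51) * (402 + 11 * s) := by
    have e1 : ((106 * c - 666) * (4 + 2 * s)) * (402 + 11 * s)
        = (106 * (c * (402 + 11 * s)) - 666 * (402 + 11 * s)) * (4 + 2 * s) := by ring
    have e2 : (11 * c - 51) * (402 + 11 * s) = 11 * (c * (402 + 11 * s)) - 51 * (402 + 11 * s) := by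
      ring
    rw [e1, e2, hc]
    nlinarith [hs]
  exact mul_right_cancel₀ hne key

theorem Num_delta {N q : ℕ → ℕ} (hN0 : N 0 = 1) (hq0 : q 0 = 0)
    (hN : ∀ K, N (K + 1) + 8 * q K ≤ 7 * N K + 18)
    (hq : ∀ K, N K + 2 ≤ q (K + 1) + q K) (K : ℕ) :
    (N K : ℝ) - (4 + 2 * √2) * q K ≤ 21 / 4 := by
  have h1 := Num_lo
  have h2 := Num_hi
  have hs := Num_sq
  induction K with
  | zero => rw [hN0, hq0]; norm_num
  | succ K ih =>
    have a : (N (K + 1) : ℝ) + 8 * q K ≤ 7 * N K + 18 := by exact_mod_cast hN K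
    have b : (N K : ℝ) + 2 ≤ q (K + 1) + q K := by exact_mod_cast hq K
    have b2 := mul_le_mul_of_nonneg_left b (show (0 : ℝ) ≤ 4 + 2 * √2 by linarith)
    have c2 := mul_le_mul_of_nonneg_left ih (show (0 : ℝ) ≤ 3 - 2 * √2 by linarith)
    have e : (3 - 2 * √2) * ((N K : ℝ) - (4 + 2 * √2) * q K)
        = (3 - 2 * √2) * N K - (4 - 2 * √2) * q K := by
      have : (3 - 2 * √2) * (4 + 2 * √2) = 4 - 2 * √2 := by nlinarith [hs]
      calc _ = (3 - 2 * √2) * N K - ((3 - 2 * √2) * (4 + 2 * √2)) * q K := by ring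
        _ = _ := by rw [this]
    rw [e] at c2
    nlinarith [b2, c2, a]

/-- Let `θ = 4 + 2√2` and `Δ_K = N_K - θ q_K`.  Then `Δ_(K+1) ≤ (7 - θ) Δ_K + 18 - 2 θ`, so
`Δ_K ≤ 21/4` for all `K` (`(8 - θ) = (7 - θ) θ`).  With `c* = (2562 + 51 √2) / (402 + 11 √2)`:
`666 N - 51 q + 54 - c* (106 N - 11 q + 14) = - (11 c* - 51) / θ * Δ + 54 - 14 c* ≥ - 49`.
If `k < c*` then `(c* - k) (106 N - 11 q + 14) ≤ 49` contradicts `N_K → ∞` (`q ≤ N`). -/
theorem limit_bound {N q : ℕ → ℕ} (hN0 : N 0 = 1) (hq0 : q 0 = 0)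
    (hN : ∀ K, N (K + 1) + 8 * q K ≤ 7 * N K + 18)
    (hq : ∀ K, N K + 2 ≤ q (K + 1) + q K)
    (hqN : ∀ K, q K ≤ N K) (hgrow : ∀ K, K + 1 ≤ N K) {k : ℝ}
    (h : ∀ K, 666 * (N K : ℝ) - 51 * q K + 54 ≤ k * (106 * N K - 11 * q K + 14)) :
    (2562 + 51 * √2) / (402 + 11 * √2) ≤ k := by
  by_contra hlt
  push Not at hlt
  have hid := Num_id
  have hgt := c_gt
  have hct := Num_c_lt
  set c := (2562 + 51 * √2) / (402 + 11 * √2) with hcdef
  have hpos : 0 < c - k := by linarith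
  obtain ⟨K, hK⟩ := exists_nat_gt (49 / (c - k))
  have hK2 : 49 < (c - k) * K := by
    rw [div_lt_iff₀ hpos] at hK
    linarith [mul_comm (K : ℝ) (c - k)]
  have hD := Num_delta hN0 hq0 hN hq K
  have hk := h K
  have hqK : (q K : ℝ) ≤ N K := by exact_mod_cast hqN K
  have hgK : (K : ℝ) + 1 ≤ N K := by exact_mod_cast hgrow K
  have hK0 : (0 : ℝ) ≤ K := Nat.cast_nonneg K
  have ht : 0 ≤ 106 * c - 666 := by linarith
  have h3 := mul_le_mul_of_nonneg_left hD ht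
  have e3 : (106 * c - 666) * ((N K : ℝ) - (4 + 2 * √2) * q K)
      = (106 * c - 666) * N K - (11 * c - 51) * q K := by
    rw [← hid]; ring
  rw [e3] at h3
  have h4 : c * (106 * N K - 11 * q K + 14) - 49 ≤ 666 * (N K : ℝ) - 51 * q K + 54 := by
    nlinarith [h3]
  have h5 : (c - k) * (106 * N K - 11 * q K + 14) ≤ 49 := by nlinarith [h4, hk]
  have h6 : (c - k) * (K : ℝ) ≤ (c - k) * (106 * N K - 11 * q K + 14) := by
    apply mul_le_mul_of_nonneg_left _ hpos.le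
    linarith
  linarith

end Pool.Agent.Lib.MP_b2bfca_co.K3
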