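import Pool.Agent.Lib.MP_b2bfca_co.K3.PackS

/-!
# The packing of a good set: number of balls
-/

set_option autoImplicit false

namespace Pool.Agent.Lib.MP_b2bfca_co.K3

open Finset Classical

variable {V ι : Type} [AddCommGroup V] [Module ℝ V] [Fintype ι] (C : Cell V ι)

namespace Cell

/-- Every block ball is `rep m (a x)` with `m ∈ O` having no descents in `T x`
(`mn_mem_of_closed`, `rep_a`). -/
theorem SA_eq {O : Finset W} (hO : Good O) : C.SA O =
    ((O ×ˢ (univ : Finset ι)).filter fun p => Disjoint (D p.1) (C.T p.2)).image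
      fun p => C.rep p.1 (C.a p.2) := by
  apply Finset.Subset.antisymm
  · intro y hy
    unfold SA at hy
    obtain ⟨p, hp, rfl⟩ := Finset.mem_image.mp hy
    obtain ⟨hp1, -⟩ := Finset.mem_product.mp hp
    refine Finset.mem_image.mpr ⟨(mn (C.T p.2) p.1, p.2), ?_, ?_⟩
    · refine Finset.mem_filter.mpr ⟨Finset.mem_product.mpr ⟨?_, Finset.mem_univ _⟩, ?_⟩
      · exact mn_mem_of_closed (O := (O : Set W)) (fun x hx t _ hd => hO.closed x hx t hd) hp1
      · rw [Finset.disjoint_left]
        intro i hi hi2
        exact mn_not_des hi2 (mem_D.mp hi)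
    · have h1 : mn (C.T p.2) p.1 = p.1 * (p.1⁻¹ * mn (C.T p.2) p.1) := by group
      show C.rep (mn (C.T p.2) p.1) (C.a p.2) = _
      rw [h1, C.rep_mul_apply, C.rep_a (mn_mem _ _)]
  · intro y hy
    obtain ⟨p, hp, rfl⟩ := Finset.mem_image.mp hy
    exact Finset.mem_image.mpr ⟨p, (Finset.mem_filter.mp hp).1, rfl⟩

/-- For fixed `g` the number of `x` with `D g ∩ T x = ∅` is `117, 105, 96` for
`|D g| = 0, 1, 2`. -/
theorem card_v (g : W) : (univ.filter fun x : ι => Disjoint (D g) (C.T x)).card =
    if (D g).card = 0 then 117 else if (D g).card = 1 then 105 else 96 := by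
  have h2 := card_D_le g
  split_ifs with h0 h1
  · rw [Finset.card_eq_zero] at h0
    rw [h0]
    have : (univ.filter fun x : ι => Disjoint (∅ : Finset (Fin 3)) (C.T x)) = univ := by
      apply Finset.filter_true_of_mem
      intro x _
      exact Finset.disjoint_empty_left _
    rw [this, Finset.card_univ]
    exact C.v0
  · obtain ⟨i, hi⟩ := Finset.card_eq_one.mp h1
    rw [hi, ← C.v1 i]
    congr 1
    apply Finset.filter_congr
    intro x _
    exact Finset.disjoint_singleton_left
  · have h3 : (D g).card = 2 := by omega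
    obtain ⟨i, j, hij, hd⟩ := Finset.card_eq_two.mp h3
    rw [hd, ← C.v2 i j hij]
    congr 1
    apply Finset.filter_congr
    intro x _
    rw [Finset.disjoint_insert_left, Finset.disjoint_singleton_left]

/-- `|SA| ≤ 105 N + 12 - 9 q`. -/
theorem card_SA {O : Finset W} (hO : Good O) : (C.SA O).card + 9 * qq O ≤ 105 * O.card + 12 := by
  have h1 : (C.SA O).card ≤
      ∑ g ∈ O, (if (D g).card = 0 then 117 else if (D g).card = 1 then 105 else 96) := by
    rw [C.SA_eq hO]
    refine Finset.card_image_le.trans ?_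
    rw [Finset.card_filter, Finset.sum_product]
    apply le_of_eq
    apply Finset.sum_congr rfl
    intro g _
    rw [← C.card_v g, Finset.card_filter]
  have h2 := hO.sum_D (fun k => if k = 0 then 117 else if k = 1 then 105 else 96)
  simp only [reduceIte, one_ne_zero, OfNat.ofNat_ne_zero, OfNat.ofNat_ne_one] at h2
  omega

/-- `|S| ≤ 106 N - 11 q + 14`. -/
theorem card_S {O : Finset W} (hO : Good O) : (C.S O).card + 11 * qq O ≤ 106 * O.card + 14 := by
  have h1 := C.card_SA hO
  have h2 : (C.SC O).card ≤ (bd O).card := Finset.card_image_le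
  have h3 := hO.card_bd
  have h4 : (C.S O).card ≤ (C.SA O).card + (C.SC O).card := Finset.card_union_le _ _
  omega

end Cell

end Pool.Agent.Lib.MP_b2bfca_co.K3
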