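import Pool.Agent.Lib.MP_b2bfca_co.K3.Lor

/-!
# From Lorentz vectors to packings of balls in `ℝ^3`
-/

set_option autoImplicit false

namespace Pool.Agent.Lib.MP_b2bfca_co.K3

open Finset Classical

noncomputable section

/-- The centre `u / b`. -/
def ctr (x : Fin 5 → ℝ) : EuclideanSpace ℝ (Fin 3) := !₂[x 0 / x 3, x 1 / x 3, x 2 / x 3]

/-- The radius `1 / b`. -/
def rad (x : Fin 5 → ℝ) : ℝ := 1 / x 3

/-- `|C - C'|^2 = r^2 + r'^2 - 2 r r' LB x y` for unit vectors. -/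
theorem dist_sq {x y : Fin 5 → ℝ} (hx : 0 < x 3) (hy : 0 < y 3) (h1 : LB x x = 1)
    (h2 : LB y y = 1) :
    dist (ctr x) (ctr y) ^ 2 = rad x ^ 2 + rad y ^ 2 - 2 * rad x * rad y * LB x y := by
  rw [LB_apply] at h1 h2
  have h3 : dist (ctr x) (ctr y) ^ 2 = (x 0 / x 3 - y 0 / y 3) ^ 2 + (x 1 / x 3 - y 1 / y 3) ^ 2
      + (x 2 / x 3 - y 2 / y 3) ^ 2 := by
    rw [EuclideanSpace.dist_eq, Real.sq_sqrt (by positivity), Fin.sum_univ_three]
    simp only [ctr, Real.dist_eq, sq_abs]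
    simp
  rw [h3, LB_apply]
  unfold rad
  have hx0 : x 3 ≠ 0 := hx.ne'
  have hy0 : y 3 ≠ 0 := hy.ne'
  field_simp
  linear_combination (y 3) ^ 2 * h1 + (x 3) ^ 2 * h2

theorem dist_ge {x y : Fin 5 → ℝ} (hx : 0 < x 3) (hy : 0 < y 3) (h1 : LB x x = 1)
    (h2 : LB y y = 1) (h : LB x y ≤ -1) : rad x + rad y ≤ dist (ctr x) (ctr y) := by
  have h3 := dist_sq hx hy h1 h2
  have r1 : 0 < rad x := by unfold rad; positivity
  have r2 : 0 < rad y := by unfold rad; positivity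
  have h4 : (rad x + rad y) ^ 2 ≤ dist (ctr x) (ctr y) ^ 2 := by
    rw [h3]
    nlinarith [mul_pos r1 r2]
  exact le_of_sq_le_sq h4 dist_nonneg

theorem dist_eq {x y : Fin 5 → ℝ} (hx : 0 < x 3) (hy : 0 < y 3) (h1 : LB x x = 1)
    (h2 : LB y y = 1) (h : LB x y = -1) : dist (ctr x) (ctr y) = rad x + rad y := by
  have h3 := dist_sq hx hy h1 h2
  have r1 : 0 < rad x := by unfold rad; positivity
  have r2 : 0 < rad y := by unfold rad; positivity
  have h4 : dist (ctr x) (ctr y) ^ 2 = (rad x + rad y) ^ 2 := by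
    rw [h3, h]
    ring
  exact (pow_left_inj₀ dist_nonneg (by positivity) two_ne_zero).mp h4

end

end Pool.Agent.Lib.MP_b2bfca_co.K3
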