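import Pool.Agent.Lib.MP_b2bfca_co.Limit
import Pool.Agent.Lib.MP_b2bfca_co.K3.ProjA

/-!
# From Lorentz vectors to packings of balls: the bound for `κ_3`
-/

set_option autoImplicit false

namespace Pool.Agent.Lib.MP_b2bfca_co.K3

open Finset Classical

/-- A finite set of Lorentz vectors gives a packing (index the set by `Fin S.card` with
`S.equivFin`; a pair of `Q` gives the ordered pair of its two indices, sorted). -/
theorem card_le_E (S : Finset (Fin 5 → ℝ)) (hb : ∀ x ∈ S, 0 < x 3) (h1 : ∀ x ∈ S, LB x x = 1)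
    (h2 : ∀ x ∈ S, ∀ y ∈ S, x ≠ y → LB x y ≤ -1) (Q : Finset ((Fin 5 → ℝ) × (Fin 5 → ℝ)))
    (hQ : ∀ p ∈ Q, p.1 ∈ S ∧ p.2 ∈ S ∧ LB p.1 p.2 = -1) (hQ' : ∀ p ∈ Q, (p.2, p.1) ∉ Q) :
    Q.card ≤ E S.card 3 := by
  set e := S.equivFin with he
  set v : Fin S.card → Fin 5 → ℝ := fun i => (e.symm i : Fin 5 → ℝ) with hv
  have hvS : ∀ i, v i ∈ S := fun i => (e.symm i).2
  have hvi : Function.Injective v := fun i j h => e.symm.injective (Subtype.ext h)
  have hex : ∀ x ∈ S, ∃ i, v i = x := fun x hx => ⟨e ⟨x, hx⟩, by rw [hv]; simp⟩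
  have hpack : IsPacking (fun i => ctr (v i)) (fun i => rad (v i)) := by
    refine ⟨fun i => one_div_pos.2 (hb _ (hvS i)), fun i j hij => ?_⟩
    exact dist_ge (hb _ (hvS i)) (hb _ (hvS j)) (h1 _ (hvS i)) (h1 _ (hvS j))
      (h2 _ (hvS i) _ (hvS j) fun h => hij (hvi h))
  have hE : edges (fun i => ctr (v i)) (fun i => rad (v i)) ≤ E S.card 3 :=
    le_csSup (E_bdd _ _) ⟨_, _, hpack, rfl⟩
  refine le_trans ?_ hE
  set Fl := univ.filter fun p : Fin S.card × Fin S.card =>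
    p.1 < p.2 ∧ dist (ctr (v p.1)) (ctr (v p.2)) = rad (v p.1) + rad (v p.2) with hFl
  have hFl' : edges (fun i => ctr (v i)) (fun i => rad (v i)) = Fl.card := by
    unfold edges
    congr
  rw [hFl']
  have hsub : Q ⊆ Fl.image fun p : Fin S.card × Fin S.card =>
      if (v p.1, v p.2) ∈ Q then (v p.1, v p.2) else (v p.2, v p.1) := by
    rintro ⟨x, y⟩ hp
    obtain ⟨hx, hy, hxy⟩ := hQ _ hp
    obtain ⟨i, rfl⟩ := hex x hx
    obtain ⟨j, rfl⟩ := hex y hy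
    have hd : dist (ctr (v i)) (ctr (v j)) = rad (v i) + rad (v j) :=
      dist_eq (hb _ hx) (hb _ hy) (h1 _ hx) (h1 _ hy) hxy
    have hij : i ≠ j := by
      rintro rfl
      have := h1 _ hx
      simp only at hxy
      rw [this] at hxy
      norm_num at hxy
    rw [mem_image]
    rcases lt_or_gt_of_ne hij with h | h
    · exact ⟨(i, j), by rw [hFl, mem_filter]; exact ⟨mem_univ _, h, hd⟩, if_pos hp⟩
    · refine ⟨(j, i), by
        rw [hFl, mem_filter]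
        refine ⟨mem_univ _, h, ?_⟩
        simp only
        rw [dist_comm, hd, add_comm], if_neg (hQ' _ hp)⟩
  exact (card_le_card hsub).trans card_image_le

theorem kappa_nonneg (d : ℕ) : 0 ≤ kappa d := by
  unfold kappa
  exact Real.iSup_nonneg fun n => by positivity

/-- `|Q| / |S| ≤ κ_3`. -/
theorem card_le_kappa (S : Finset (Fin 5 → ℝ)) (hS : S.Nonempty) (hb : ∀ x ∈ S, 0 < x 3)
    (h1 : ∀ x ∈ S, LB x x = 1)
    (h2 : ∀ x ∈ S, ∀ y ∈ S, x ≠ y → LB x y ≤ -1) (Q : Finset ((Fin 5 → ℝ) × (Fin 5 → ℝ)))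
    (hQ : ∀ p ∈ Q, p.1 ∈ S ∧ p.2 ∈ S ∧ LB p.1 p.2 = -1) (hQ' : ∀ p ∈ Q, (p.2, p.1) ∉ Q) :
    (Q.card : ℝ) ≤ kappa 3 * S.card := by
  have hc := card_le_E S hb h1 h2 Q hQ hQ'
  obtain ⟨n, hn⟩ : ∃ n, S.card = n + 1 := ⟨S.card - 1, by
    have := hS.card_pos
    omega⟩
  have h3 : (E (n + 1) 3 : ℝ) / ((n : ℝ) + 1) ≤ kappa 3 := le_ciSup (kappa_bdd 3) n
  rw [div_le_iff₀ (by positivity)] at h3
  rw [hn] at hc
  rw [hn]
  push_cast
  have h4 : (Q.card : ℝ) ≤ (E (n + 1) 3 : ℝ) := by exact_mod_cast hc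
  linarith

end Pool.Agent.Lib.MP_b2bfca_co.K3
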