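import Pool.Agent.Lib.MP_b2bfca_co.K3.CountN
import Pool.Agent.Lib.MP_b2bfca_co.K3.CountQ
import Pool.Agent.Lib.MP_b2bfca_co.K3.EdgesC
import Pool.Agent.Lib.MP_b2bfca_co.K3.PackV
import Pool.Agent.Lib.MP_b2bfca_co.K3.ModelB
import Pool.Agent.Lib.MP_b2bfca_co.K3.ProjB
import Pool.Agent.Lib.MP_b2bfca_co.K3.Num

/-!
# `κ_3 ≥ (2562 + 51 √2) / (402 + 11 √2)`
-/

set_option autoImplicit false

namespace Pool.Agent.Lib.MP_b2bfca_co.K3

theorem kappa3_layer (K : ℕ) :
    666 * ((Om K).card : ℝ) - 51 * qq (Om K) + 54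
      ≤ kappa 3 * (106 * (Om K).card - 11 * qq (Om K) + 14) := by
  have hO := good_Om K
  have h1 := cell.card_Q hO
  have h2 := cell.card_S hO
  have h3 := card_le_kappa (cell.S (Om K)) (cell.S_nonempty hO)
    (by
      intro x hx
      have := cell.S_neg x hx
      have h4 : cell.B cell.n x = - x 3 := nv_apply x
      linarith)
    cell.S_unit (cell.S_sep hO) (cell.Q (Om K)) (cell.Q_mem hO) (cell.Q_swap hO)
  have h5 : ((cell.Q (Om K)).card : ℝ) + 51 * qq (Om K) = 666 * (Om K).card + 54 := by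
    exact_mod_cast h1
  have h6 : ((cell.S (Om K)).card : ℝ) + 11 * qq (Om K) ≤ 106 * (Om K).card + 14 := by
    exact_mod_cast h2
  have h7 : kappa 3 * ((cell.S (Om K)).card : ℝ)
      ≤ kappa 3 * (106 * (Om K).card - 11 * qq (Om K) + 14) :=
    mul_le_mul_of_nonneg_left (by linarith) (kappa_nonneg 3)
  linarith

theorem kappa3_ge : (2562 + 51 * √2) / (402 + 11 * √2) ≤ kappa 3 :=
  limit_bound (N := fun K => (Om K).card) (q := fun K => qq (Om K)) card_Om_zero qq_Om_zero
    (fun K => (good_Om K).card_next) (fun K => (good_Om K).qq_next) (fun K => qq_le (Om K))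
    card_Om_ge kappa3_layer

end Pool.Agent.Lib.MP_b2bfca_co.K3
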