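import Mathlib

/-!
# The Lorentz form on `ℝ^5` in coordinates `(u, b, c)`

The ball with centre `C` and radius `r` corresponds to `(C / r, 1 / r, (|C|^2 - r^2) / r)`.
-/

set_option autoImplicit false

namespace Pool.Agent.Lib.MP_b2bfca_co.K3

noncomputable section

/-- The Lorentz form `u·u' - (b c' + c b') / 2`. -/
def LB : (Fin 5 → ℝ) →ₗ[ℝ] (Fin 5 → ℝ) →ₗ[ℝ] ℝ :=
  LinearMap.mk₂ ℝ
    (fun x y => x 0 * y 0 + x 1 * y 1 + x 2 * y 2 - (x 3 * y 4 + x 4 * y 3) / 2)
    (by
      intro x x' y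
      simp only [Pi.add_apply]
      ring)
    (by
      intro c x y
      simp only [Pi.smul_apply, smul_eq_mul]
      ring)
    (by
      intro x y y'
      simp only [Pi.add_apply]
      ring)
    (by
      intro c x y
      simp only [Pi.smul_apply, smul_eq_mul]
      ring)

theorem LB_apply (x y : Fin 5 → ℝ) :
    LB x y = x 0 * y 0 + x 1 * y 1 + x 2 * y 2 - (x 3 * y 4 + x 4 * y 3) / 2 := rfl

theorem LB_symm (x y : Fin 5 → ℝ) : LB x y = LB y x := by
  rw [LB_apply, LB_apply]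
  ring

end

end Pool.Agent.Lib.MP_b2bfca_co.K3
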