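import Pool.Agent.Lib.MP_b2bfca_co.K3.Lor
import Pool.Agent.Lib.MP_b2bfca_co.K3.DataA
import Pool.Agent.Lib.MP_b2bfca_co.K3.Basic

/-!
# The 600-cell as a `Cell`
-/

set_option autoImplicit false

namespace Pool.Agent.Lib.MP_b2bfca_co.K3

open Finset Classical

noncomputable section

/-- `ℝ^4 × ℝ → ℝ^5`, an isometry for `x·y - t t'`; stereographic projection from
`p0 = (0, 0, 3, 4) / 5`. -/
def emb (x : Fin 4 → ℝ) (t : ℝ) : Fin 5 → ℝ :=
  ![x 0, x 1, (4 * x 2 - 3 * x 3) / 5, t - (3 * x 2 + 4 * x 3) / 5, t + (3 * x 2 + 4 * x 3) / 5]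

theorem LB_emb (x y : Fin 4 → ℝ) (t t' : ℝ) :
    LB (emb x t) (emb y t') = x 0 * y 0 + x 1 * y 1 + x 2 * y 2 + x 3 * y 3 - t * t' := by
  rw [LB_apply]
  change x 0 * y 0 + x 1 * y 1 + (4 * x 2 - 3 * x 3) / 5 * ((4 * y 2 - 3 * y 3) / 5) -
    ((t - (3 * x 2 + 4 * x 3) / 5) * (t' + (3 * y 2 + 4 * y 3) / 5) +
      (t + (3 * x 2 + 4 * x 3) / 5) * (t' - (3 * y 2 + 4 * y 3) / 5)) / 2 = _
  ring

/-- Coordinates of the vertices. -/
def cr (x : ℕ) : Fin 4 → ℝ :=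
  ![((vt x).1 + (vt x).2.1 * ph) / 2, ((vt x).2.2.1 + (vt x).2.2.2.1 * ph) / 2,
    ((vt x).2.2.2.2.1 + (vt x).2.2.2.2.2.1 * ph) / 2,
    ((vt x).2.2.2.2.2.2.1 + (vt x).2.2.2.2.2.2.2 * ph) / 2]

theorem cr_dot (x y : ℕ) : cr x 0 * cr y 0 + cr x 1 * cr y 1 + cr x 2 * cr y 2 + cr x 3 * cr y 3 =
    ((dt x y).1 + (dt x y).2 * ph) / 4 := by
  unfold dt cr
  obtain ⟨a0, b0, a1, b1, a2, b2, a3, b3⟩ := vt x
  obtain ⟨c0, d0, c1, d1, c2, d2, c3, d3⟩ := vt y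
  have h := ph_mul_self
  change ((a0 : ℝ) + b0 * ph) / 2 * (((c0 : ℝ) + d0 * ph) / 2) +
    ((a1 : ℝ) + b1 * ph) / 2 * (((c1 : ℝ) + d1 * ph) / 2) +
    ((a2 : ℝ) + b2 * ph) / 2 * (((c2 : ℝ) + d2 * ph) / 2) +
    ((a3 : ℝ) + b3 * ph) / 2 * (((c3 : ℝ) + d3 * ph) / 2) =
    (((a0 * c0 + b0 * d0 + (a1 * c1 + b1 * d1) + (a2 * c2 + b2 * d2) + (a3 * c3 + b3 * d3) : ℤ) : ℝ)
     + ((a0 * d0 + b0 * c0 + b0 * d0 + (a1 * d1 + b1 * c1 + b1 * d1)
      + (a2 * d2 + b2 * c2 + b2 * d2) + (a3 * d3 + b3 * c3 + b3 * d3) : ℤ) : ℝ) * ph) / 4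
  push_cast
  linear_combination (((b0 : ℝ) * d0 + b1 * d1 + b2 * d2 + b3 * d3) / 4) * h

theorem cr_pd (x : ℕ) : (3 * cr x 2 + 4 * cr x 3) / 5 = ((pd x).1 + (pd x).2 * ph) / 10 := by
  unfold pd cr
  obtain ⟨a0, b0, a1, b1, a2, b2, a3, b3⟩ := vt x
  change (3 * (((a2 : ℝ) + b2 * ph) / 2) + 4 * (((a3 : ℝ) + b3 * ph) / 2)) / 5 =
    (((3 * a2 + 4 * a3 : ℤ) : ℝ) + ((3 * b2 + 4 * b3 : ℤ) : ℝ) * ph) / 10
  push_cast
  ring

/-- `τ = √(φ + 2)`. -/
def tau : ℝ := √(ph + 2)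

theorem tau_sq : tau ^ 2 = ph + 2 := by
  unfold tau
  rw [Real.sq_sqrt]
  have := ph_pos
  linarith

theorem tau_pos : 0 < tau := by
  unfold tau
  apply Real.sqrt_pos.2
  have := ph_pos
  linarith

/-- Walls. -/
def rv (i : Fin 3) : Fin 5 → ℝ := emb (tau • cr (117 + i)) ph

/-- Balls. -/
def av (x : ℕ) : Fin 5 → ℝ := emb ((2 * ph) • cr x) (ph * tau)

/-- `LB (av x) (av y) = φ^2 (P + Q φ) - (4 φ + 3)`. -/
theorem av_av (x y : ℕ) : LB (av x) (av y) =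
    ph ^ 2 * ((dt x y).1 + (dt x y).2 * ph) - (4 * ph + 3) := by
  unfold av
  rw [LB_emb]
  simp only [Pi.smul_apply, smul_eq_mul]
  have h := cr_dot x y
  have h1 := ph_mul_self
  have h2 := tau_sq
  linear_combination (4 * ph ^ 2) * h - ph ^ 2 * h2 - (ph + 3) * h1

theorem av_rv (x : ℕ) (i : Fin 3) : LB (av x) (rv i) =
    2 * ph * tau * (((dt x (117 + i)).1 + (dt x (117 + i)).2 * ph) / 4 - ph / 2) := by
  unfold av rv
  rw [LB_emb]
  simp only [Pi.smul_apply, smul_eq_mul]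
  have h := cr_dot x (117 + i)
  linear_combination (2 * ph * tau) * h

theorem rv_rv (i j : Fin 3) : LB (rv i) (rv j) =
    (ph + 2) * (((dt (117 + i) (117 + j)).1 + (dt (117 + i) (117 + j)).2 * ph) / 4)
      - ph ^ 2 := by
  unfold rv
  rw [LB_emb]
  simp only [Pi.smul_apply, smul_eq_mul]
  have h := cr_dot (117 + i) (117 + j)
  have h2 := tau_sq
  linear_combination (tau ^ 2) * h +
    (((dt (117 + i) (117 + j)).1 + (dt (117 + i) (117 + j)).2 * ph) / 4) * h2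

/-- Different vertices: disjoint balls. -/
theorem ModelA_okd {p : ℤ × ℤ} (h : okd p = true) :
    p = (0, 2) ∨ ((p.1 : ℝ) + p.2 * ph ≤ 2) := by
  have h1 := one_lt_ph
  have h2 := ph_lt_two
  unfold okd at h
  simp only [Bool.or_eq_true, beq_iff_eq] at h
  rcases h with ((((((h | h) | h) | h) | h) | h) | h) | h
  · exact Or.inl h
  all_goals
    right
    rw [h]
    push_cast
    linarith

theorem av_av_le {x y : ℕ} (hx : x < 120) (hy : y < 120) (h : x ≠ y) :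
    LB (av x) (av y) ≤ -1 := by
  have h1 := one_lt_ph
  have h2 := ph_lt_two
  have h3 := ph_sq
  have h4 : ph ^ 3 = 2 * ph + 1 := by
    have : ph ^ 3 = ph * ph ^ 2 := by ring
    rw [this, h3, mul_add, ph_mul_self]
    ring
  rw [av_av]
  have hv : ((dt x y).1 : ℝ) + (dt x y).2 * ph ≤ 2 * ph := by
    rcases ModelA_okd (dt_ne x hx y hy h) with h5 | h5
    · rw [h5]
      push_cast
      linarith
    · linarith
  have h5 := mul_le_mul_of_nonneg_left hv (sq_nonneg ph)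
  have h6 : ph ^ 2 * (2 * ph) = 4 * ph + 2 := by
    have : ph ^ 2 * (2 * ph) = 2 * ph ^ 3 := by ring
    rw [this, h4]
    ring
  linarith

theorem av_av_eq {x y : ℕ} (h : dt x y = (0, 2)) : LB (av x) (av y) = -1 := by
  rw [av_av, h]
  push_cast
  have h1 := ph_mul_self
  linear_combination (2 * ph + 2) * h1

theorem av_self {x : ℕ} (hx : x < 120) : LB (av x) (av x) = 1 := by
  rw [av_av, dt_self x hx]
  push_cast
  have h1 := ph_mul_self
  linear_combination 4 * h1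

theorem av_rv_zero {x : ℕ} {i : Fin 3} (h : dt x (117 + i) = (0, 2)) : LB (av x) (rv i) = 0 := by
  rw [av_rv, h]
  push_cast
  ring

theorem av_rv_le {x : ℕ} {i : Fin 3} (hx : x < 117) (h : dt x (117 + i) ≠ (0, 2)) :
    LB (av x) (rv i) ≤ -1 := by
  have h1 := one_lt_ph
  have hi := i.2
  rw [av_rv]
  have hv : ((dt x (117 + i)).1 : ℝ) + (dt x (117 + i)).2 * ph ≤ 2 := by
    rcases ModelA_okd (dt_ne x (by omega) (117 + i) (by omega) (by omega)) with h5 | h5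
    · exact absurd h5 h
    · exact h5
  have ht := tau_pos
  have ht1 : 1 ≤ tau := by
    have h2 := tau_sq
    nlinarith
  have hc : 0 ≤ 2 * ph * tau := by
    have := ph_pos
    positivity
  have h3 : (((dt x (117 + i)).1 : ℝ) + (dt x (117 + i)).2 * ph) / 4 - ph / 2 ≤
      2 / 4 - ph / 2 := by linarith
  have h4 := mul_le_mul_of_nonneg_left h3 hc
  have h5 : 2 * ph * tau * (2 / 4 - ph / 2) = -tau := by
    have h6 := ph_mul_self
    linear_combination (-tau) * h6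
  linarith

end

end Pool.Agent.Lib.MP_b2bfca_co.K3
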