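import Pool.Agent.Lib.MP_b2bfca_co.K3.Dih
import Pool.Agent.Lib.MP_b2bfca_co.K3.ParB

/-!
# Good finite subsets of the Coxeter group
-/

set_option autoImplicit false

namespace Pool.Agent.Lib.MP_b2bfca_co.K3

open Finset Classical

noncomputable section

/-- Good sets: closed under descents, and containing a dihedral coset as soon as they contain an
element of height at least `3` in it. -/
structure Good (O : Finset W) : Prop where
  one : (1 : W) ∈ O
  closed : ∀ x ∈ O, ∀ i, Des x i → x * s i ∈ O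
  full : ∀ x ∈ O, ∀ i j : Fin 3, i ≠ j → Des x i → Des (x * s i) j → Des (x * s i * s j) i →
    ∀ k ∈ Par {i, j}, x * k ∈ O

/-- The ten elements of the parabolic subgroup of the two labels different from `l`. -/
def ten (l : Fin 3) : Finset W := (dlist (l + 1) (l + 2)).toFinset

theorem OmegaA_compl (l : Fin 3) : ({l}ᶜ : Finset (Fin 3)) = {l + 1, l + 2} := by
  revert l; decide

theorem OmegaA_ne (l : Fin 3) : l + 1 ≠ l + 2 := by
  revert l; decide

theorem mem_ten {l : Fin 3} {k : W} : k ∈ ten l ↔ k ∈ Par {l}ᶜ := by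
  have e : Par {l}ᶜ = Par {l + 1, l + 2} := congrArg Par (by convert OmegaA_compl l)
  rw [e]
  unfold ten
  rw [List.mem_toFinset]
  exact ⟨fun h => dlist_mem h, fun h => par_pair (OmegaA_ne l) h⟩

theorem card_ten_le (l : Fin 3) : (ten l).card ≤ 10 := by
  unfold ten
  exact (List.toFinset_card_le _).trans (by simp [dlist])

/-- The next layer. -/
def next (O : Finset W) : Finset W :=
  (univ : Finset (Fin 3)).biUnion fun l => O.biUnion fun g => (ten l).image fun k => g * k

theorem mem_next {O : Finset W} {g : W} :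
    g ∈ next O ↔ ∃ l : Fin 3, ∃ h ∈ O, h⁻¹ * g ∈ Par {l}ᶜ := by
  unfold next
  simp only [Finset.mem_biUnion, Finset.mem_image, Finset.mem_univ, true_and]
  constructor
  · rintro ⟨l, h, hh, k, hk, rfl⟩
    refine ⟨l, h, hh, ?_⟩
    rw [inv_mul_cancel_left]
    exact mem_ten.1 hk
  · rintro ⟨l, h, hh, hk⟩
    refine ⟨l, h, hh, h⁻¹ * g, mem_ten.2 hk, ?_⟩
    rw [mul_inv_cancel_left]

theorem subset_next (O : Finset W) : O ⊆ next O := by
  intro g hg
  rw [mem_next]
  exact ⟨0, g, hg, by rw [inv_mul_cancel]; exact (Par _).one_mem⟩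

theorem Good.mn_mem {O : Finset W} (hO : Good O) {g : W} (hg : g ∈ O) (T : Finset (Fin 3)) :
    mn T g ∈ O :=
  mn_mem_of_closed (O := (O : Set W)) (fun x hx t _ hd => hO.closed x hx t hd) hg

/-- For good sets: `g` is in the next layer iff one of its minimal representatives is in `O`. -/
theorem Good.mem_next {O : Finset W} (hO : Good O) {g : W} :
    g ∈ next O ↔ ∃ l : Fin 3, mn {l}ᶜ g ∈ O := by
  rw [K3.mem_next]
  constructor
  · rintro ⟨l, h, hh, hk⟩
    refine ⟨l, ?_⟩
    rw [← (mn_eq_iff (T := {l}ᶜ) (g := h) (h := g)).2 hk]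
    exact hO.mn_mem hh _
  · rintro ⟨l, hl⟩
    refine ⟨l, _, hl, ?_⟩
    have h1 : (mn {l}ᶜ g)⁻¹ * g = (g⁻¹ * mn {l}ᶜ g)⁻¹ := by group
    rw [h1]
    exact (Par _).inv_mem (K3.mn_mem _ g)

theorem good_one : Good {1} := by
  refine ⟨by simp, ?_, ?_⟩
  · intro x hx i hd
    rw [Finset.mem_singleton] at hx
    subst hx
    exact absurd hd (not_des_one i)
  · intro x hx i j _ hd _ _ _ _
    rw [Finset.mem_singleton] at hx
    subst hx
    exact absurd hd (not_des_one i)

end

end Pool.Agent.Lib.MP_b2bfca_co.K3
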