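import Pool.Agent.Lib.MP_b2bfca_co.K3.OmegaA

/-!
# Caps of good sets
-/

set_option autoImplicit false

namespace Pool.Agent.Lib.MP_b2bfca_co.K3

open Finset Classical

/-- Outer boundary elements have exactly one descent.
Proof: `Des x i` since otherwise `Des (x s_i) i` and `x = x s_i s_i ∈ O`.  If `Des x j`, `j ≠ i`,
then by `dih` for `(x; i, j)`: `Des (x s_i) j`, `Des (x s_i s_j) i`, `Des (x s_i s_j s_i) j`, so
`full` for `x s_i` gives `x ∈ O`. -/
theorem Good.bd_des {O : Finset W} (hO : Good O) {x : W} {i : Fin 3} (hx : x ∉ O)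
    (hi : x * s i ∈ O) : Des x i ∧ ∀ j, j ≠ i → ¬ Des x j := by
  have h1 : Des x i := by
    by_contra hcon
    have h2 := hO.closed _ hi i (des_mul.2 hcon)
    rw [mul_s_s] at h2
    exact hx h2
  refine ⟨h1, fun j hj hdj => ?_⟩
  obtain ⟨d1, d2, d3, _⟩ := dih (Ne.symm hj) h1 hdj
  have h2 := hO.full _ hi j i hj d1 d2 d3 (s i) (s_mem_par (by simp))
  rw [mul_s_s] at h2
  exact hx h2

theorem OmegaC_mn {O : Finset W} (hO : Good O) {x : W} {i : Fin 3} (hx : x ∉ O)
    (hi : x * s i ∈ O) : mn {i}ᶜ x = x := by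
  refine mn_self fun t ht => ?_
  have : t ≠ i := by simpa using ht
  exact (hO.bd_des hx hi).2 t this

/-- (C1): the coset of a cap does not meet `O`.  Proof: `mn {i}ᶜ x = x` by `bd_des`, and if `y ∈ O`
is in the coset then `x = mn {i}ᶜ y ∈ O`. -/
theorem Good.cap_disj {O : Finset W} (hO : Good O) {x y : W} {i : Fin 3} (hx : x ∉ O)
    (hi : x * s i ∈ O) (hy : y ∈ O) : x⁻¹ * y ∉ Par {i}ᶜ := by
  intro h
  have h1 := mn_eq_iff.2 h
  rw [OmegaC_mn hO hx hi] at h1
  apply hx
  rw [h1]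
  exact hO.mn_mem hy _

theorem OmegaC_core {O : Finset W} (hO : Good O) {x z y : W} {i j l : Fin 3} (hx : x ∉ O)
    (hi : x * s i ∈ O) (hz : z ∉ O) (hj : z * s j ∈ O) (h1 : x⁻¹ * y ∈ Par {i}ᶜ)
    (h2 : z⁻¹ * y ∈ Par {j}ᶜ) (hij : i ≠ j) (hil : i ≠ l) (hjl : j ≠ l) (hl : ¬ Des y l) :
    False := by
  have hT : ∀ a b c t : Fin 3, a ≠ b → a ≠ c → b ≠ c → t ∈ ({a}ᶜ : Finset (Fin 3)) →
      t = b ∨ t = c := by decide
  have e1 : mn {i}ᶜ y = x := by
    rw [← mn_eq_iff.2 h1]
    exact OmegaC_mn hO hx hi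
  have e2 : mn {j}ᶜ y = z := by
    rw [← mn_eq_iff.2 h2]
    exact OmegaC_mn hO hz hj
  by_cases dj : Des y j
  · by_cases di : Des y i
    · have hnv := (noviol hij.symm hjl hil dj di).1
      have e3 : mn {i}ᶜ (y * s j) = y * s j := by
        refine mn_self fun t ht => ?_
        rcases hT i j l t hij hil hjl ht with h | h
        · rw [h]; exact not_des_mul dj
        · rw [h]; exact hnv
      rw [mn_mul_s (by simpa using hij.symm), e1] at e3
      obtain ⟨d1, d2, d3, d4, _⟩ := dih hij.symm dj di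
      rw [e3] at hi hx
      have h3 := hO.full _ hi j i hij.symm d2 d3 d4 (s i) (s_mem_par (by simp))
      rw [mul_s_s] at h3
      exact hx h3
    · have e3 : mn {j}ᶜ y = y := by
        refine mn_self fun t ht => ?_
        rcases hT j i l t hij.symm hjl hil ht with h | h
        · rw [h]; exact di
        · rw [h]; exact hl
      have e4 : z = y := by rw [← e2, e3]
      subst e4
      have e5 : mn {i}ᶜ (z * s j) = x := by
        rw [mn_mul_s (by simpa using hij.symm), e1]
      apply hx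
      rw [← e5]
      exact hO.mn_mem hj _
  · have e3 : mn {i}ᶜ y = y := by
      refine mn_self fun t ht => ?_
      rcases hT i j l t hij hil hjl ht with h | h
      · rw [h]; exact dj
      · rw [h]; exact hl
    have e4 : x = y := by rw [← e1, e3]
    subst e4
    have e5 : mn {j}ᶜ (x * s i) = z := by
      rw [mn_mul_s (by simpa using hij), e2]
    apply hz
    rw [← e5]
    exact hO.mn_mem hi _

/-- (C2): cosets of different caps are disjoint.
Proof: if `i = j` then `x = mn {i}ᶜ y = z`.  Let `i ≠ j` and let `l` be the third label; replacing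
`y` by `y s_l` if necessary, `l` is not a descent of `y`.  If `j` is not a descent of `y` then
`y = mn {i}ᶜ y = x`, so `z = mn {j}ᶜ x = mn {j}ᶜ (x s_i) ∈ O`, contradiction.  Symmetrically if
`i` is not a descent of `y`.  If both are descents, `noviol` gives that `l` is not a descent of
`y s_j`, so `x = y s_j`; by `dih` for `(y; j, i)` and `full` for `x s_i = y s_j s_i ∈ O`,
`x ∈ O`, contradiction. -/
theorem Good.cap_cap {O : Finset W} (hO : Good O) {x z y : W} {i j : Fin 3} (hx : x ∉ O)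
    (hi : x * s i ∈ O) (hz : z ∉ O) (hj : z * s j ∈ O) (h1 : x⁻¹ * y ∈ Par {i}ᶜ)
    (h2 : z⁻¹ * y ∈ Par {j}ᶜ) : x = z ∧ i = j := by
  by_cases hij : i = j
  · subst hij
    refine ⟨?_, rfl⟩
    rw [← OmegaC_mn hO hx hi, ← OmegaC_mn hO hz hj, mn_eq_iff.2 h1, mn_eq_iff.2 h2]
  · exfalso
    have hl : ∀ a b : Fin 3, a ≠ b → ∃ c, a ≠ c ∧ b ≠ c := by decide
    obtain ⟨l, hil, hjl⟩ := hl i j hij
    by_cases dl : Des y l
    · have h1' : x⁻¹ * (y * s l) ∈ Par {i}ᶜ := by
        rw [← mul_assoc]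
        exact (Par _).mul_mem h1 (s_mem_par (by simpa using hil.symm))
      have h2' : z⁻¹ * (y * s l) ∈ Par {j}ᶜ := by
        rw [← mul_assoc]
        exact (Par _).mul_mem h2 (s_mem_par (by simpa using hjl.symm))
      exact OmegaC_core hO hx hi hz hj h1' h2' hij hil hjl (not_des_mul dl)
    · exact OmegaC_core hO hx hi hz hj h1 h2 hij hil hjl dl

end Pool.Agent.Lib.MP_b2bfca_co.K3
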