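import Pool.Agent.Lib.MP_b2bfca_co.K3.CountA
import Pool.Agent.Lib.MP_b2bfca_co.K3.Cell

/-!
# The packing of a good set: vertices
-/

set_option autoImplicit false

namespace Pool.Agent.Lib.MP_b2bfca_co.K3

open Finset Classical

variable {V ι : Type} [AddCommGroup V] [Module ℝ V] [Fintype ι] (C : Cell V ι)

namespace Cell

noncomputable section

/-- The block balls. -/
def SA (O : Finset W) : Finset V :=
  (O ×ˢ (univ : Finset ι)).image fun p => C.rep p.1 (C.a p.2)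

/-- The cap balls. -/
def SC (O : Finset W) : Finset V := (bd O).image fun p => C.rep p.2 (C.u p.1)

/-- All balls. -/
def S (O : Finset W) : Finset V := C.SA O ∪ C.SC O

theorem packS_mem_SA {O : Finset W} {x : V} :
    x ∈ C.SA O ↔ ∃ g ∈ O, ∃ i : ι, C.rep g (C.a i) = x := by
  unfold SA
  simp only [Finset.mem_image, Finset.mem_product, Finset.mem_univ, and_true, Prod.exists]
  constructor
  · rintro ⟨g, i, hg, h⟩
    exact ⟨g, hg, i, h⟩
  · rintro ⟨g, hg, i, h⟩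
    exact ⟨g, i, hg, h⟩

theorem packS_mem_SC {O : Finset W} {x : V} :
    x ∈ C.SC O ↔ ∃ p ∈ bd O, C.rep p.2 (C.u p.1) = x := by
  unfold SC
  simp only [Finset.mem_image]

/-- Moving both group elements to the left. -/
theorem packS_B_rep (g h : W) (x y : V) :
    C.B (C.rep g x) (C.rep h y) = C.B (C.rep (h⁻¹ * g) x) y := by
  rw [C.rep_mul_apply, ← C.rep_isom h (C.rep h⁻¹ (C.rep g x)) y, C.rep_apply_inv]

theorem S_neg {O : Finset W} : ∀ x ∈ C.S O, C.B C.n x < 0 := by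
  intro x hx
  rcases Finset.mem_union.mp hx with h | h
  · obtain ⟨g, -, i, rfl⟩ := C.packS_mem_SA.mp h
    exact C.neg_a i g
  · obtain ⟨p, -, rfl⟩ := C.packS_mem_SC.mp h
    exact C.neg_u p.1 p.2

theorem S_unit {O : Finset W} : ∀ x ∈ C.S O, C.B x x = 1 := by
  intro x hx
  rcases Finset.mem_union.mp hx with h | h
  · obtain ⟨g, -, i, rfl⟩ := C.packS_mem_SA.mp h
    rw [C.rep_isom, C.aa]
  · obtain ⟨p, -, rfl⟩ := C.packS_mem_SC.mp h
    rw [C.rep_isom, C.uu]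

/-- Block balls are separated from each other (`sepA`, `rep_isom`). -/
theorem SA_SA {O : Finset W} {x y : V} (hx : x ∈ C.SA O) (hy : y ∈ C.SA O) (hxy : x ≠ y) :
    C.B x y ≤ -1 := by
  obtain ⟨g, -, i, rfl⟩ := C.packS_mem_SA.mp hx
  obtain ⟨h, -, j, rfl⟩ := C.packS_mem_SA.mp hy
  rw [C.packS_B_rep]
  rcases C.sepA i j (h⁻¹ * g) with ⟨rfl, hk⟩ | hk
  · exfalso
    apply hxy
    have h1 := C.rep_a hk
    rw [C.rep_mul_apply] at h1
    have h2 := congrArg (fun v => C.rep h v) h1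
    simp only [C.rep_apply_inv] at h2
    exact h2
  · exact hk

/-- By `cap_disj` and `sepC`. -/
theorem SC_SA {O : Finset W} (hO : Good O) {x y : V} (hx : x ∈ C.SC O) (hy : y ∈ C.SA O) :
    C.B x y ≤ -1 := by
  obtain ⟨p, hp, rfl⟩ := C.packS_mem_SC.mp hx
  obtain ⟨g, hg, j, rfl⟩ := C.packS_mem_SA.mp hy
  rw [C.packS_B_rep]
  rw [mem_bd] at hp
  apply C.sepC
  intro hk
  apply hO.cap_disj hp.1 hp.2 hg
  have := (Par {p.1}ᶜ).inv_mem hk
  rwa [mul_inv_rev, inv_inv] at this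

/-- By `cap_cap` and `sepCC`. -/
theorem SC_SC {O : Finset W} (hO : Good O) {p q : Fin 3 × W} (hp : p ∈ bd O) (hq : q ∈ bd O)
    (hpq : p ≠ q) : C.B (C.rep p.2 (C.u p.1)) (C.rep q.2 (C.u q.1)) ≤ -1 := by
  rw [C.packS_B_rep]
  rw [mem_bd] at hp hq
  apply C.sepCC
  intro v hv v' hv' he
  apply hpq
  have h1 : p.2⁻¹ * (q.2 * v) ∈ Par {p.1}ᶜ := by
    have h3 : p.2⁻¹ * (q.2 * v) = v'⁻¹ := by
      have h4 : p.2 = q.2 * (v * v') := by rw [← he]; group
      rw [h4]; group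
    rw [h3]
    exact (Par {p.1}ᶜ).inv_mem hv'
  have h2 : q.2⁻¹ * (q.2 * v) ∈ Par {q.1}ᶜ := by
    rw [inv_mul_cancel_left]
    exact hv
  obtain ⟨e1, e2⟩ := hO.cap_cap hp.1 hp.2 hq.1 hq.2 h1 h2
  exact Prod.ext e2 e1

theorem S_sep {O : Finset W} (hO : Good O) : ∀ x ∈ C.S O, ∀ y ∈ C.S O, x ≠ y → C.B x y ≤ -1 := by
  intro x hx y hy hxy
  rcases Finset.mem_union.mp hx with h | h <;> rcases Finset.mem_union.mp hy with h' | h'
  · exact C.SA_SA h h' hxy
  · rw [C.symm]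
    exact C.SC_SA hO h' h
  · exact C.SC_SA hO h h'
  · obtain ⟨p, hp, rfl⟩ := C.packS_mem_SC.mp h
    obtain ⟨q, hq, rfl⟩ := C.packS_mem_SC.mp h'
    refine C.SC_SC hO hp hq ?_
    rintro rfl
    exact hxy rfl

theorem S_nonempty {O : Finset W} (hO : Good O) : (C.S O).Nonempty := by
  refine ⟨C.rep 1 (C.a C.x0), Finset.mem_union_left _ ?_⟩
  exact Finset.mem_image.mpr ⟨(1, C.x0), Finset.mem_product.mpr ⟨hO.one, Finset.mem_univ _⟩, rfl⟩

end

end Cell

end Pool.Agent.Lib.MP_b2bfca_co.K3
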