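import Pool.Agent.Lib.MP_b2bfca_co.K3.Tits

/-!
# Parabolic subgroups: uniqueness of minimal coset representatives
-/

set_option autoImplicit false

namespace Pool.Agent.Lib.MP_b2bfca_co.K3

/-- Elements of `Par T` do not change the coordinates outside `T`. -/
theorem par_coord {T : Finset (Fin 3)} {k : W} (hk : k ∈ Par T) {l : Fin 3} (hl : l ∉ T)
    (x : Fin 3 → ℝ) : cfg0.rep k x l = x l := by
  induction hk using Subgroup.closure_induction generalizing x with
  | mem y hy =>
    obtain ⟨j, hj, rfl⟩ := hy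
    rw [cfg0.rep_s, refl0_apply, if_neg]
    rintro rfl
    exact hl hj
  | one => rw [cfg0.rep_one_apply]
  | mul a b _ _ ha hb => rw [cfg0.rep_mul_apply, ha, hb]
  | inv a _ ha =>
    have h1 := ha (cfg0.rep a⁻¹ x)
    rw [cfg0.rep_apply_inv] at h1
    exact h1.symm

/-- Minimal coset representatives are unique.
Proof: let `k = g⁻¹ h ∈ Par T` and suppose `k ≠ 1`; take a descent `t` of `k` (`exists_des`).
`Gap (- rt k t)` by `tits_neg`.  If `t ∉ T` then `rt k t t = 1` by `par_coord`, contradiction.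
So `t ∈ T`, and `rt k t u = 0` for `u ∉ T` by `par_coord`.  Then
`rt h t = cfg0.rep g (rt k t) = ∑ u ∈ T, (rt k t u) • rt g u ≤ 0` since `rt g u ≥ 0` for `u ∈ T`;
but `rt h t ≥ 0` and `≠ 0`. -/
theorem min_unique {T : Finset (Fin 3)} {g h : W} (hg : ∀ t ∈ T, ¬ Des g t)
    (hh : ∀ t ∈ T, ¬ Des h t) (hk : g⁻¹ * h ∈ Par T) : g = h := by
  by_contra hne
  have hk1 : g⁻¹ * h ≠ 1 := fun h1 => hne (inv_mul_eq_one.1 h1)
  obtain ⟨t, ht⟩ := exists_des hk1
  have hneg := (tits_neg ht).nonneg
  have htT : t ∈ T := by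
    by_contra htT
    have h1 : rt (g⁻¹ * h) t t = 1 := by
      unfold rt
      rw [par_coord hk htT, Pi.single_eq_same]
    have h2 := hneg t
    rw [Pi.neg_apply, h1] at h2
    linarith
  have hout : ∀ u, u ∉ T → rt (g⁻¹ * h) t u = 0 := by
    intro u hu
    unfold rt
    rw [par_coord hk hu, Pi.single_eq_of_ne]
    rintro rfl
    exact hu htT
  have e1 : rt h t = ∑ u, rt (g⁻¹ * h) t u • rt g u := by
    have e2 : rt h t = cfg0.rep g (rt (g⁻¹ * h) t) := by
      unfold rt
      rw [← cfg0.rep_mul_apply, mul_inv_cancel_left]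
    have e3 : rt (g⁻¹ * h) t = ∑ u, rt (g⁻¹ * h) t u • (Pi.single u (1 : ℝ) : Fin 3 → ℝ) := by
      funext v
      rw [Finset.sum_apply]
      simp [Pi.single_apply]
    rw [e2]
    conv_lhs => rw [e3]
    rw [map_sum]
    refine Finset.sum_congr rfl fun u _ => ?_
    rw [map_smul]
    rfl
  apply rt_ne_zero h t
  funext v
  have hpos := (tits (hh t htT)).nonneg v
  have hle : rt h t v ≤ 0 := by
    rw [e1, Finset.sum_apply]
    refine Finset.sum_nonpos fun u _ => ?_
    rw [Pi.smul_apply, smul_eq_mul]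
    by_cases hu : u ∈ T
    · have h1 := hneg u
      rw [Pi.neg_apply] at h1
      exact mul_nonpos_of_nonpos_of_nonneg (by linarith) ((tits (hg u hu)).nonneg v)
    · rw [hout u hu, zero_mul]
  rw [Pi.zero_apply]
  linarith

end Pool.Agent.Lib.MP_b2bfca_co.K3
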