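import Pool.Agent.Lib.MP_b2bfca_co.K3.Basic

/-!
# Reflection representations of the Coxeter group

`Cfg V`: a symmetric bilinear form on `V` and three vectors of square `1` with pairwise products
`-φ/2 = -cos 36`.
-/

set_option autoImplicit false

namespace Pool.Agent.Lib.MP_b2bfca_co.K3

noncomputable section

/-- A symmetric bilinear form with three unit vectors with pairwise products `-φ/2`. -/
structure Cfg (V : Type) [AddCommGroup V] [Module ℝ V] where
  /-- the form -/
  B : V →ₗ[ℝ] V →ₗ[ℝ] ℝ
  symm : ∀ x y, B x y = B y x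
  /-- the three vectors -/
  r : Fin 3 → V
  gram : ∀ i j, B (r i) (r j) = if i = j then 1 else -(ph / 2)

variable {V : Type} [AddCommGroup V] [Module ℝ V] (C : Cfg V)

namespace Cfg

/-- The reflection in `r i`. -/
def refl (i : Fin 3) : V →ₗ[ℝ] V := LinearMap.id - (2 : ℝ) • (C.B (C.r i)).smulRight (C.r i)

theorem refl_apply (i : Fin 3) (x : V) : C.refl i x = x - (2 * C.B x (C.r i)) • C.r i := by
  unfold refl
  simp only [LinearMap.sub_apply, LinearMap.id_apply, LinearMap.smul_apply,
    LinearMap.smulRight_apply, smul_smul]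
  rw [C.symm (C.r i) x]

theorem refl_isom (i : Fin 3) (x y : V) : C.B (C.refl i x) (C.refl i y) = C.B x y := by
  rw [refl_apply, refl_apply]
  have h := C.gram i i
  simp only [if_true] at h
  simp only [map_sub, map_smul, LinearMap.sub_apply, LinearMap.smul_apply, smul_eq_mul, h,
    C.symm (C.r i) y]
  ring

theorem refl_refl (i : Fin 3) (x : V) : C.refl i (C.refl i x) = x := by
  have h := C.gram i i
  simp only [if_true] at h
  rw [refl_apply C i (C.refl i x), refl_apply]
  simp only [map_sub, map_smul, LinearMap.sub_apply, LinearMap.smul_apply, smul_eq_mul, h]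
  module

/-- One step of the rotation in the plane of two roots. -/
private theorem refl_step {i j : Fin 3} (h : i ≠ j) (x : V) (a b a' b' : ℝ)
    (ha : a' = ph * a - ph * b - 2 * ph * C.B x (C.r j) - 2 * C.B x (C.r i))
    (hb : b' = ph * a - b - 2 * C.B x (C.r j)) :
    C.refl i (C.refl j (x + a • C.r i + b • C.r j)) = x + a' • C.r i + b' • C.r j := by
  have h1 := C.gram i i
  have h2 := C.gram j j
  have h3 := C.gram i j
  have h4 := C.gram j i
  simp only [if_true] at h1 h2
  simp only [h, if_false] at h3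
  simp only [h.symm, if_false] at h4
  have ha2 : a' = -a + ph * (-b + ph * a - 2 * C.B x (C.r j)) - 2 * C.B x (C.r i) := by
    rw [ha]
    linear_combination (-a) * ph_sq
  rw [refl_apply C i, refl_apply C j]
  simp only [map_add, map_sub, map_smul, LinearMap.add_apply, LinearMap.sub_apply,
    LinearMap.smul_apply, smul_eq_mul, h1, h2, h3, h4]
  rw [ha2, hb]
  module

theorem liftable : cm.IsLiftable C.refl := by
  intro i j
  by_cases h : i = j
  · subst h
    have hM : cm.M i i = 1 := by simp [cm]
    rw [hM, pow_one]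
    ext x
    exact C.refl_refl i x
  · have hM : cm.M i j = 5 := by simp [cm, h]
    rw [hM]
    ext x
    have e : ((C.refl i * C.refl j) ^ 5) x =
        C.refl i (C.refl j (C.refl i (C.refl j (C.refl i (C.refl j (C.refl i (C.refl j
          (C.refl i (C.refl j x))))))))) := by
      simp only [pow_succ, pow_zero, one_mul, Module.End.mul_apply]
    have hp := ph_sq
    have h0 : x = x + (0 : ℝ) • C.r i + (0 : ℝ) • C.r j := by simp
    have s1 := C.refl_step h x 0 0 (-2 * ph * C.B x (C.r j) - 2 * C.B x (C.r i))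
      (-2 * C.B x (C.r j)) (by ring) (by ring)
    have s2 := C.refl_step h x _ _ (-2 * (ph + 1) * (C.B x (C.r i) + C.B x (C.r j)))
      (-2 * (ph + 1) * C.B x (C.r j) - 2 * ph * C.B x (C.r i))
      (show _ = ph * (-2 * ph * C.B x (C.r j) - 2 * C.B x (C.r i)) -
          ph * (-2 * C.B x (C.r j)) - 2 * ph * C.B x (C.r j) - 2 * C.B x (C.r i) by
        linear_combination (2 * C.B x (C.r j)) * hp)
      (show _ = ph * (-2 * ph * C.B x (C.r j) - 2 * C.B x (C.r i)) -
          (-2 * C.B x (C.r j)) - 2 * C.B x (C.r j) by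
        linear_combination (2 * C.B x (C.r j)) * hp)
    have s3 := C.refl_step h x (-2 * (ph + 1) * (C.B x (C.r i) + C.B x (C.r j)))
      (-2 * (ph + 1) * C.B x (C.r j) - 2 * ph * C.B x (C.r i))
      (-2 * (ph + 1) * C.B x (C.r i) - 2 * ph * C.B x (C.r j))
      (-2 * (ph + 1) * (C.B x (C.r i) + C.B x (C.r j)))
      (by ring)
      (by linear_combination (2 * C.B x (C.r i) + 2 * C.B x (C.r j)) * hp)
    have s4 := C.refl_step h x (-2 * (ph + 1) * C.B x (C.r i) - 2 * ph * C.B x (C.r j))
      (-2 * (ph + 1) * (C.B x (C.r i) + C.B x (C.r j)))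
      (-2 * C.B x (C.r i)) (-2 * ph * C.B x (C.r i) - 2 * C.B x (C.r j))
      (by ring) (by linear_combination (2 * C.B x (C.r i) + 2 * C.B x (C.r j)) * hp)
    have s5 := C.refl_step h x (-2 * C.B x (C.r i)) (-2 * ph * C.B x (C.r i) - 2 * C.B x (C.r j))
      0 0 (by linear_combination (-2 * C.B x (C.r i)) * hp) (by ring)
    rw [← h0] at s1 s5
    rw [e, s1, s2, s3, s4, s5]
    rfl

/-- The representation. -/
def rep : W →* (V →ₗ[ℝ] V) := cs.lift ⟨C.refl, C.liftable⟩

theorem rep_s (i : Fin 3) : C.rep (s i) = C.refl i := cs.lift_apply_simple C.liftable i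

theorem rep_mul_apply (g h : W) (x : V) : C.rep (g * h) x = C.rep g (C.rep h x) := by
  rw [map_mul]
  rfl

theorem rep_one_apply (x : V) : C.rep 1 x = x := by
  rw [map_one]
  rfl

theorem rep_isom (g : W) (x y : V) : C.B (C.rep g x) (C.rep g y) = C.B x y := by
  induction g using left_induction with
  | h1 => rw [rep_one_apply, rep_one_apply]
  | h2 i k _ ih => rw [rep_mul_apply, rep_mul_apply, rep_s, refl_isom, ih]

theorem rep_inv_apply (g : W) (x : V) : C.rep g⁻¹ (C.rep g x) = x := by
  rw [← rep_mul_apply, inv_mul_cancel, rep_one_apply]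

theorem rep_apply_inv (g : W) (x : V) : C.rep g (C.rep g⁻¹ x) = x := by
  rw [← rep_mul_apply, mul_inv_cancel, rep_one_apply]

theorem B_rep_left (g : W) (x y : V) : C.B (C.rep g x) y = C.B x (C.rep g⁻¹ y) := by
  rw [← C.rep_isom g⁻¹ (C.rep g x) y, rep_inv_apply]

end Cfg

/-- The standard configuration: `ℝ^3` with the Tits form. -/
def cfg0 : Cfg (Fin 3 → ℝ) where
  B := LinearMap.mk₂ ℝ (fun x y => ∑ i, ∑ j, x i * y j * (if i = j then 1 else -(ph / 2)))
    (by
      intro x x' y
      simp only [Pi.add_apply, Fin.sum_univ_three]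
      ring)
    (by
      intro c x y
      simp only [Pi.smul_apply, smul_eq_mul, Fin.sum_univ_three]
      ring)
    (by
      intro x y y'
      simp only [Pi.add_apply, Fin.sum_univ_three]
      ring)
    (by
      intro c x y
      simp only [Pi.smul_apply, smul_eq_mul, Fin.sum_univ_three]
      ring)
  symm := by
    intro x y
    simp only [LinearMap.mk₂_apply, Fin.sum_univ_three]
    simp
    ring
  r := fun i => Pi.single i 1
  gram := by
    intro i j
    simp only [LinearMap.mk₂_apply, Fin.sum_univ_three]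
    fin_cases i <;> fin_cases j <;> simp

/-- The coordinates of the root `g α_i`. -/
def rt (g : W) (i : Fin 3) : Fin 3 → ℝ := cfg0.rep g (Pi.single i 1)

/-- The reflections on `ℝ^3` in coordinates. -/
theorem refl0_apply (i j : Fin 3) (x : Fin 3 → ℝ) :
    cfg0.refl i x j = if j = i then -x i + ph * ∑ k ∈ Finset.univ.erase i, x k else x j := by
  have e : ∑ k ∈ Finset.univ.erase i, x k = (∑ k, x k) - x i := by
    rw [← Finset.add_sum_erase Finset.univ x (Finset.mem_univ i)]
    ring
  have hr : cfg0.r i = Pi.single i 1 := rfl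
  have hB : cfg0.B x (Pi.single i 1) = x i - ph / 2 * ((∑ k, x k) - x i) := by
    have : cfg0.B x (Pi.single i 1) =
        ∑ a, ∑ b, x a * (Pi.single i 1 : Fin 3 → ℝ) b * (if a = b then 1 else -(ph / 2)) := rfl
    rw [this]
    fin_cases i <;> simp [Fin.sum_univ_three, Pi.single_apply] <;> ring
  rw [Cfg.refl_apply, hr, hB, e]
  simp only [Pi.sub_apply, Pi.smul_apply, Pi.single_apply, smul_eq_mul]
  split_ifs with h
  · subst h
    ring
  · ring

private theorem refl_comb (i : Fin 3) (y : Fin 3 → ℝ) :
    C.refl i (∑ j, y j • C.r j) = ∑ j, (cfg0.refl i y) j • C.r j := by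
  have hB : C.B (∑ j, y j • C.r j) (C.r i) = y i - ph / 2 * ((y 0 + y 1 + y 2) - y i) := by
    simp only [Fin.sum_univ_three, map_add, map_smul, LinearMap.add_apply, LinearMap.smul_apply,
      smul_eq_mul, C.gram]
    generalize ph = t
    fin_cases i <;> simp <;> ring
  have e : ∑ k ∈ Finset.univ.erase i, y k = (y 0 + y 1 + y 2) - y i := by
    have h := Finset.add_sum_erase Finset.univ y (Finset.mem_univ i)
    rw [Fin.sum_univ_three] at h
    linarith
  rw [Cfg.refl_apply, hB]
  simp only [refl0_apply, Fin.sum_univ_three, e]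
  generalize ph = t
  fin_cases i <;> simp <;> module

/-- In every configuration the roots have the same coordinates. -/
theorem Cfg.rep_comb (g : W) (x : Fin 3 → ℝ) :
    C.rep g (∑ j, x j • C.r j) = ∑ j, (cfg0.rep g x) j • C.r j := by
  induction g using left_induction with
  | h1 => rw [C.rep_one_apply, cfg0.rep_one_apply]
  | h2 i k _ ih =>
    rw [C.rep_mul_apply, cfg0.rep_mul_apply, C.rep_s, cfg0.rep_s, ih, refl_comb]

theorem Cfg.rep_root (g : W) (i : Fin 3) : C.rep g (C.r i) = ∑ j, rt g i j • C.r j := by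
  rw [rt, ← C.rep_comb]
  congr 1
  simp [Pi.single_apply]

end

end Pool.Agent.Lib.MP_b2bfca_co.K3
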