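import Pool.Agent.Lib.MP_b2bfca_co.K3.Refl

/-!
# Tits' lemma with a gap: coordinates of positive roots are `0` or at least `1`
-/

set_option autoImplicit false

namespace Pool.Agent.Lib.MP_b2bfca_co.K3

/-- `x` is nonnegative with coordinates `0` or at least `1`. -/
def Gap (x : Fin 3 → ℝ) : Prop := ∀ j, x j = 0 ∨ 1 ≤ x j

theorem Gap.nonneg {x : Fin 3 → ℝ} (h : Gap x) (j : Fin 3) : 0 ≤ x j := by
  rcases h j with h | h
  · rw [h]
  · linarith

/-- `w (s j) α_i = w α_i + φ w α_j` etc.: the action of alternating words. -/
theorem rt_mul_s (g : W) {i j : Fin 3} (h : i ≠ j) : rt (g * s j) i = rt g i + ph • rt g j := by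
  have hg : cfg0.B (Pi.single i 1) (cfg0.r j) = -(ph / 2) := by
    have h1 := cfg0.gram i j
    rw [if_neg h] at h1
    exact h1
  unfold rt
  rw [cfg0.rep_mul_apply, cfg0.rep_s, cfg0.refl_apply, hg, ← map_smul, ← map_add]
  congr 1
  have h2 : cfg0.r j = Pi.single j 1 := rfl
  rw [h2]
  module

theorem rt_mul_s_self (g : W) (i : Fin 3) : rt (g * s i) i = - rt g i := by
  have hg : cfg0.B (Pi.single i 1) (cfg0.r i) = 1 := by
    have h1 := cfg0.gram i i
    rw [if_pos rfl] at h1
    exact h1
  unfold rt
  rw [cfg0.rep_mul_apply, cfg0.rep_s, cfg0.refl_apply, hg, ← map_neg]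
  congr 1
  have h2 : cfg0.r i = Pi.single i 1 := rfl
  rw [h2]
  module

theorem rt_one (i : Fin 3) : rt 1 i = Pi.single i 1 := by
  unfold rt
  rw [cfg0.rep_one_apply]

theorem rt_ne_zero (g : W) (i : Fin 3) : rt g i ≠ 0 := by
  intro h
  have h1 : cfg0.rep g⁻¹ (rt g i) = Pi.single i 1 := cfg0.rep_inv_apply g _
  rw [h, map_zero] at h1
  have h2 := congrFun h1 i
  simp at h2

theorem tits_gap_comb {a b : ℝ} (ha : a = 1 ∨ a = ph) (hb : b = 1 ∨ b = ph)
    {x y : Fin 3 → ℝ} (hx : Gap x) (hy : Gap y) : Gap (a • x + b • y) := by
  have hp := one_lt_ph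
  have ha1 : 1 ≤ a := by rcases ha with h | h <;> rw [h]; exact hp.le
  have hb1 : 1 ≤ b := by rcases hb with h | h <;> rw [h]; exact hp.le
  intro j
  simp only [Pi.add_apply, Pi.smul_apply, smul_eq_mul]
  have hx0 := hx.nonneg j
  have hy0 := hy.nonneg j
  rcases hx j with h1 | h1
  · rcases hy j with h2 | h2
    · left
      rw [h1, h2]
      ring
    · right
      nlinarith
  · right
    nlinarith

theorem tits_gap_one : ∀ i : Fin 3, Gap (Pi.single i 1 : Fin 3 → ℝ) := by
  intro i j
  by_cases h : j = i
  · right
    rw [h]
    simp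
  · left
    simp [h]

/-- Tits' lemma.  Proof (strong induction on `len g`): if `g = 1` clear.  Otherwise take a descent
`j` of `g` (`j ≠ i`), go down along the alternating chain `g, g j, g j i, g j i j, ...` as long as
the length drops; the chain stops after `k ≤ 4` steps at `v` with `i, j` not descents of `v`
(`k = 5` is impossible: then `g = v * (jiji j)^{..} = v * w0`, and `i` would be a descent of `g`
by the braid relation) and `g = v * u` with `u` alternating of length `k` ending in `j`;
`rt g i = rt v i + ph rt v j`, `ph rt v i + ph rt v j`, `ph rt v i + rt v j`, `rt v j` for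
`k = 1, 2, 3, 4` (with the roles of `i`, `j` according to the first letter). -/
theorem tits {g : W} {i : Fin 3} (h : ¬ Des g i) : Gap (rt g i) := by
  induction hn : len g using Nat.strong_induction_on generalizing g i with
  | _ n ih =>
    by_cases hg : g = 1
    · rw [hg, rt_one]
      exact tits_gap_one i
    obtain ⟨j, hj⟩ := exists_des hg
    have hij : i ≠ j := by
      intro e
      rw [e] at h
      exact h hj
    have hji : j ≠ i := fun e => hij e.symm
    have l1 := des_iff.mp hj
    have d1 := not_des_mul hj
    by_cases e1 : Des (g * s j) i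
    swap
    · have h1 := ih _ (by omega) e1 rfl
      have h2 := ih _ (by omega) d1 rfl
      have h3 := rt_mul_s (g * s j) hij
      rw [mul_s_s] at h3
      rw [h3]
      have h4 := tits_gap_comb (Or.inl rfl) (Or.inr rfl) h1 h2
      rwa [one_smul] at h4
    have l2 := des_iff.mp e1
    have d2 := not_des_mul e1
    -- second step
    have r2 : rt g i = ph • rt (g * s j * s i) i + ph • rt (g * s j * s i) j := by
      have h3 := rt_mul_s (g * s j) hij
      rw [mul_s_s] at h3
      have h4 := rt_mul_s (g * s j * s i) hji
      rw [mul_s_s] at h4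
      have h5 := rt_mul_s_self (g * s j * s i) i
      rw [mul_s_s] at h5
      rw [h3, h4, h5]
      have := ph_mul_self
      rw [smul_add, smul_smul, this]
      module
    by_cases e2 : Des (g * s j * s i) j
    swap
    · have h1 := ih _ (by omega) d2 rfl
      have h2 := ih _ (by omega) e2 rfl
      rw [r2]
      exact tits_gap_comb (Or.inr rfl) (Or.inr rfl) h1 h2
    have l3 := des_iff.mp e2
    have d3 := not_des_mul e2
    have r3 : rt g i = ph • rt (g * s j * s i * s j) i + (1 : ℝ) • rt (g * s j * s i * s j) j := by
      have h4 := rt_mul_s (g * s j * s i * s j) hij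
      rw [mul_s_s] at h4
      have h5 := rt_mul_s_self (g * s j * s i * s j) j
      rw [mul_s_s] at h5
      rw [r2, h4, h5]
      have := ph_mul_self
      rw [smul_add, smul_smul, this]
      module
    by_cases e3 : Des (g * s j * s i * s j) i
    swap
    · have h1 := ih _ (by omega) e3 rfl
      have h2 := ih _ (by omega) d3 rfl
      rw [r3]
      exact tits_gap_comb (Or.inr rfl) (Or.inl rfl) h1 h2
    have l4 := des_iff.mp e3
    have d4 := not_des_mul e3
    have r4 : rt g i = rt (g * s j * s i * s j * s i) j := by
      have h4 := rt_mul_s (g * s j * s i * s j * s i) hji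
      rw [mul_s_s] at h4
      have h5 := rt_mul_s_self (g * s j * s i * s j * s i) i
      rw [mul_s_s] at h5
      rw [r3, h4, h5]
      module
    by_cases e4 : Des (g * s j * s i * s j * s i) j
    swap
    · rw [r4]
      exact ih _ (by omega) e4 rfl
    exfalso
    have l5 := des_iff.mp e4
    apply h
    have e5 : g * s i = g * s j * s i * s j * s i * s j * (s i * s j * s i * s j) := by
      have hb := braid hij
      have h6 : g * s j * s i * s j * s i * s j = g * s i * s j * s i * s j * s i := by
        have : g * s j * s i * s j * s i * s j = g * (s j * s i * s j * s i * s j) := by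
          simp only [mul_assoc]
        rw [this, ← hb]
        simp only [mul_assoc]
      rw [h6]
      have : g * s i * s j * s i * s j * s i * (s i * s j * s i * s j)
          = g * s i * s j * s i * s j * s i * s i * s j * s i * s j := by
        simp only [mul_assoc]
      rw [this, mul_s_s, mul_s_s, mul_s_s, mul_s_s]
    unfold Des
    rw [e5]
    have h7 := len_mul_le (g * s j * s i * s j * s i * s j) (s i * s j * s i * s j)
    have h8 := len_mul_le (s i * s j * s i) (s j)
    have h9 := len_mul_le (s i * s j) (s i)
    have h10 := len_mul_le (s i) (s j)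
    rw [len_s] at h8 h9 h10
    rw [len_s] at h10
    omega

theorem tits_neg {g : W} {i : Fin 3} (h : Des g i) : Gap (- rt g i) := by
  have h1 : ¬ Des (g * s i) i := not_des_mul h
  have h2 := tits h1
  rwa [rt_mul_s_self] at h2

/-- `g α_i ≥ 0` implies that `i` is not a descent. -/
theorem not_des_of_nonneg {g : W} {i : Fin 3} (h : ∀ j, 0 ≤ rt g i j) : ¬ Des g i := by
  intro hd
  apply rt_ne_zero g i
  funext j
  have h1 := (tits_neg hd).nonneg j
  have h2 := h j
  rw [Pi.neg_apply] at h1
  rw [Pi.zero_apply]
  linarith

end Pool.Agent.Lib.MP_b2bfca_co.K3
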